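import Pool.Agent.Lib_helper53.LSPI.Fix
import Pool.Agent.Lib_helper98.HK.Fin
import Pool.Agent.Lib_helper41.LSP2.DefsB

/-! LSP2, instance of part B: supports, symmetry. -/

set_option autoImplicit false

open Finset Filter

namespace Pool.Agent.LSPI

open Pool.Agent.LSP

/-- the support of the coefficients of a product -/
theorem cb_le {E : ℕ} {x y : ℕ → ℝ} {a b : ℝ} (hx : ∀ e, x e ≠ 0 → (e : ℝ) ≤ a)
    (hy : ∀ e, y e ≠ 0 → (e : ℝ) ≤ b) {n : ℕ} (h : CB E x y n ≠ 0) :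
    (n : ℝ) ≤ a * b := by
  unfold CB at h
  obtain ⟨j, hj, h1⟩ := exists_ne_zero_of_sum_ne_zero h
  have hj1 := (mem_Icc.1 hj).1
  obtain ⟨p, hp, h2⟩ := exists_ne_zero_of_sum_ne_zero (right_ne_zero_of_mul h1)
  have h3 : x (j * p.1) * y (j * p.2) ≠ 0 := by
    intro h4
    rw [h4, zero_div] at h2
    exact h2 rfl
  have hx1 := hx _ (left_ne_zero_of_mul h3)
  have hy1 := hy _ (right_ne_zero_of_mul h3)
  have h5 := (Nat.mem_divisorsAntidiagonal.1 hp).1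
  have h6 : p.1 ≤ j * p.1 := Nat.le_mul_of_pos_left _ hj1
  have h7 : p.2 ≤ j * p.2 := Nat.le_mul_of_pos_left _ hj1
  have h8 : (p.1 : ℝ) ≤ a := le_trans (by exact_mod_cast h6) hx1
  have h9 : (p.2 : ℝ) ≤ b := le_trans (by exact_mod_cast h7) hy1
  rw [← h5]
  push_cast
  exact mul_le_mul h8 h9 (Nat.cast_nonneg _) ((Nat.cast_nonneg _).trans h8)

theorem qb_symm (ρ : ℝ → ℝ) (T : ℝ) (B E : ℕ) (x y : ℕ → ℝ) (N : ℕ) :
    QB ρ T B E x y N = QB ρ T B E y x N := by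
  unfold QB
  congr 1
  · unfold shB
    simp only [mul_comm (KSL.WW E (wX E x) _) (KSL.WW E (wX E y) _),
      mul_comm (wX E x _) (wX E y _)]
  · unfold ODB
    have h : CB E x y = CB E y x := funext fun n => cb_symm E x y n
    rw [h]

theorem od_eq (ρ : ℝ → ℝ) (B E : ℕ) (x : ℕ → ℝ) (N : ℕ) :
    OD ρ B E x N = ODB ρ B E x x N := rfl

theorem yt_congr {P : Finset ℕ} {θ θ' : ℕ → ℝ} (h : ∀ p ∈ P, θ p = θ' p) (y : ℕ → ℝ) :
    YT P θ y = YT P θ' y := by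
  funext e
  unfold YT
  exact sum_congr rfl fun p hp => by rw [h p hp]

end Pool.Agent.LSPI
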