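import Pool.Agent.Lib_helper53.LSPI.Arith
import Pool.Agent.Lib_helper98.HK.FinC
import Pool.Agent.Lib_helper46.LSP2.MQ4

/-! LSP2, part B: the off-diagonal of every prime level of a good range, without hypotheses. -/

set_option autoImplicit false

namespace Pool.Agent.LSP

open Pool.Agent.LEV Pool.Agent.LVB Pool.Agent.KSL
open Pool.Agent.FG61 (mu phi cc ff AA Lam)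
open Pool.Agent.GA (Prm)

theorem arith2 {c₁ : ℝ} (hc₁ : 0 < c₁) (C₀ : ℝ) {v : ℝ} (hv : 0 < v) (hv' : v ≤ 1 / 80) :
    ∃ C : ℝ, 1 ≤ C ∧ ∃ c : ℝ, 0 < c ∧ ∃ A : ℝ, 1000 ≤ A ∧
    ∀ κ κ₁ : ℝ, 0 < κ → A * κ ≤ v → 0 < κ₁ → κ₁ ≤ κ →
    ∀ {T : ℝ} {ρ : ℝ → ℝ}, KerL T ρ → ∀ {g : ℝ → ℝ} {G : ℝ}, Kg g G →
    (∀ u, 0 < u → ‖kh ρ u‖ ^ 2 + ‖kh ρ (-u)‖ ^ 2 ≤ g u) → ∫ u in Set.Ioi (0 : ℝ), g u ≤ 1 →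
    ∀ {B₀ : ℕ}, 1 + T ^ 2 ≤ (B₀ : ℝ) → ∀ C₂ C₃ : ℕ, ∀ δ : ℝ, 0 < δ →
    ∃ ε₁ : ℝ, 0 < ε₁ ∧ ∀ ε₂ : ℝ, 0 < ε₂ → ε₂ ≤ ε₁ → ∃ X₀ : ℕ, ∀ X : ℕ, X₀ ≤ X →
    GA.Good c₁ ⌊(X : ℝ) ^ (496 * κ)⌋₊ → ∃ θ : ℕ → ℝ, (∀ p ∈ PB κ v X, 0 ≤ θ p ∧ θ p ≤ 1) ∧
    κ / (C * v) ≤ ∑ p ∈ PB κ v X, θ p / p ∧ ∑ p ∈ PB κ v X, θ p / p ≤ κ / v ∧
    ∀ a : ℕ → ℝ, Sht (zz X) (KA ε₂ X) a → cn (zz X) (KA ε₂ X) a ≤ C₀ →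
    (∀ k : ℕ, |a k| * Real.sqrt k ≤ Real.log X ^ C₂ * tau k ^ C₃) →
    ∀ N : ℕ, N.Prime → X ≤ 2 * N → N ≤ 4 * X → ∀ t : ℝ, 0 ≤ t → t ≤ 1 →
      OD ρ B₀ (E2 κ X) (x2 κ v κ₁ t X θ a) N ≤ C * t * Real.exp (-(c * v / κ)) + δ :=
  arith2_of (@m2_quad) (@m2_cross) hc₁ C₀ hv hv'

end Pool.Agent.LSP
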