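import Pool.Agent.Lib_helper53.LSPI.Core3
import Pool.Agent.Lib_helper84.LSP2.FRZ
import Pool.Agent.Lib_helper31.LSP2.O2
import Pool.Agent.Lib_helper15.LSP2.P2M
import Pool.Agent.Lib_helper46.LSP2.AD4
import Pool.Agent.Lib_helper46.LSP2.WIN

/-! LSP2, part B: the off-diagonal of every prime level of a good range. -/

set_option autoImplicit false

open Finset Filter
open scoped ComplexConjugate

namespace Pool.Agent.LSP

open Pool.Agent.LEV Pool.Agent.LVB Pool.Agent.KSL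
open Pool.Agent.FG61 (mu phi cc ff AA Lam)
open Pool.Agent.GA (Prm)
open Pool.Agent.LSPI

/-- a small exponential -/
theorem exp_small {C c : ℝ} (hC : 1 ≤ C) (hc : 0 < c) :
    ∃ A : ℝ, 1000 ≤ A ∧ ∀ κ v : ℝ, 0 < κ → A * κ ≤ v → C * Real.exp (-(c * v / κ)) ≤ 1 / 64 := by
  refine ⟨max 1000 (Real.log (64 * C) / c), le_max_left _ _, fun κ v hκ hv => ?_⟩
  have h1 : Real.log (64 * C) / c * κ ≤ v :=
    le_trans (mul_le_mul_of_nonneg_right (le_max_right _ _) hκ.le) hv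
  have h2 : Real.log (64 * C) ≤ c * v / κ := by
    rw [le_div_iff₀ hκ]
    rw [div_mul_eq_mul_div, div_le_iff₀ hc] at h1
    linarith
  have h3 : Real.exp (-(c * v / κ)) ≤ (64 * C)⁻¹ := by
    rw [Real.exp_neg]
    have h4 : 64 * C ≤ Real.exp (c * v / κ) := by
      rw [← Real.log_le_iff_le_exp (by linarith)]
      exact h2
    gcongr
  calc C * Real.exp (-(c * v / κ)) ≤ C * (64 * C)⁻¹ := mul_le_mul_of_nonneg_left h3 (by linarith)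
    _ = 1 / 64 := by field_simp

theorem div_two_le {C a b : ℝ} (hC : 1 ≤ C) (h : |a| ≤ b) : |a / (2 * C)| ≤ b := by
  rw [abs_div, abs_of_pos (by linarith : 0 < 2 * C), div_le_iff₀ (by linarith)]
  have := abs_nonneg a
  nlinarith

/-- the bound for the quadratic form, as a proposition -/
def M2Q : Prop := ∀ (C₀ : ℝ) {v : ℝ}, 0 < v → v ≤ 1 / 80 → ∃ C : ℝ, 1 ≤ C ∧
    ∀ {T : ℝ} {ρ : ℝ → ℝ}, KerL T ρ → ∀ {g : ℝ → ℝ}
    {G : ℝ}, Kg g G → (∀ u, 0 < u → ‖kh ρ u‖ ^ 2 + ‖kh ρ (-u)‖ ^ 2 ≤ g u) →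
    ∫ u in Set.Ioi (0 : ℝ), g u ≤ 1 → ∀ κ κ₁ : ℝ, 0 < κ → 1000 * κ ≤ v →
    0 < κ₁ → κ₁ ≤ κ → ∃ ε₁ : ℝ, 0 < ε₁ ∧ ∀ ε₂ : ℝ, 0 < ε₂ → ε₂ ≤ ε₁ → ∃ X₀ : ℕ, ∀ X : ℕ, X₀ ≤ X →
    ∀ a : ℕ → ℝ, Sht (zz X) (KA ε₂ X) a → cn (zz X) (KA ε₂ X) a ≤ C₀ →
    ∀ N : ℕ, X ≤ 4 * N → N ≤ 8 * X →
      sh ρ T (E2 κ X) (y0 κ₁ X a) N ≤ C ∧
      ∀ θ : ℕ → ℝ, (∀ p ∈ PB κ v X, |θ p| ≤ 1) →
        sh ρ T (E2 κ X) (YT (PB κ v X) θ (y1 κ v X a)) N ≤
          C * ∑ p ∈ PB κ v X, θ p ^ 2 / p + (X : ℝ) ^ (-(20 * κ))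

/-- the smoothness of the cross term, as a proposition -/
def M2C : Prop := ∀ {T : ℝ} {ρ : ℝ → ℝ}, KerL T ρ → ∀ (C₀ : ℝ) (κ v κ₁ : ℝ), 0 < κ →
    1000 * κ ≤ v → v ≤ 1 / 80 → 0 < κ₁ → κ₁ ≤ κ → ∃ ε₁ : ℝ, 0 < ε₁ ∧
    ∀ ε₂ : ℝ, 0 < ε₂ → ε₂ ≤ ε₁ → ∃ X₀ : ℕ, ∀ X : ℕ, X₀ ≤ X →
    ∀ a : ℕ → ℝ, Sht (zz X) (KA ε₂ X) a → cn (zz X) (KA ε₂ X) a ≤ C₀ →
    ∀ N : ℕ, X ≤ 4 * N → N ≤ 8 * X → ∃ S : ℝ → ℝ,
      (∀ s t, |S s - S t| ≤ (X : ℝ) ^ (10 * κ) * |s - t|) ∧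
      ∀ θ : ℕ → ℝ, (∀ p ∈ PB κ v X, |θ p| ≤ 1) →
        |shB ρ T (E2 κ X) (y0 κ₁ X a) (YT (PB κ v X) θ (y1 κ v X a)) N -
          ∑ p ∈ PB κ v X, θ p / p * S (Real.log p)| ≤ (X : ℝ) ^ (-(20 * κ))

theorem arith2_of (m2_quad : M2Q) (m2_cross : M2C) {c₁ : ℝ} (hc₁ : 0 < c₁) (C₀ : ℝ) {v : ℝ}
    (hv0 : 0 < v) (hv : v ≤ 1 / 80) :
    ∃ C : ℝ, 1 ≤ C ∧ ∃ c : ℝ, 0 < c ∧ ∃ A : ℝ, 1000 ≤ A ∧
    ∀ κ κ₁ : ℝ, 0 < κ → A * κ ≤ v → 0 < κ₁ → κ₁ ≤ κ →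
    ∀ {T : ℝ} {ρ : ℝ → ℝ}, KerL T ρ → ∀ {g : ℝ → ℝ} {G : ℝ}, Kg g G →
    (∀ u, 0 < u → ‖kh ρ u‖ ^ 2 + ‖kh ρ (-u)‖ ^ 2 ≤ g u) → ∫ u in Set.Ioi (0 : ℝ), g u ≤ 1 →
    ∀ {B₀ : ℕ}, 1 + T ^ 2 ≤ (B₀ : ℝ) → ∀ C₂ C₃ : ℕ, ∀ δ : ℝ, 0 < δ →
    ∃ ε₁ : ℝ, 0 < ε₁ ∧ ∀ ε₂ : ℝ, 0 < ε₂ → ε₂ ≤ ε₁ → ∃ X₀ : ℕ, ∀ X : ℕ, X₀ ≤ X →
    GA.Good c₁ ⌊(X : ℝ) ^ (496 * κ)⌋₊ → ∃ θ : ℕ → ℝ, (∀ p ∈ PB κ v X, 0 ≤ θ p ∧ θ p ≤ 1) ∧
    κ / (C * v) ≤ ∑ p ∈ PB κ v X, θ p / p ∧ ∑ p ∈ PB κ v X, θ p / p ≤ κ / v ∧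
    ∀ a : ℕ → ℝ, Sht (zz X) (KA ε₂ X) a → cn (zz X) (KA ε₂ X) a ≤ C₀ →
    (∀ k : ℕ, |a k| * Real.sqrt k ≤ Real.log X ^ C₂ * tau k ^ C₃) →
    ∀ N : ℕ, N.Prime → X ≤ 2 * N → N ≤ 4 * X → ∀ t : ℝ, 0 ≤ t → t ≤ 1 →
      OD ρ B₀ (E2 κ X) (x2 κ v κ₁ t X θ a) N ≤ C * t * Real.exp (-(c * v / κ)) + δ := by
  obtain ⟨Cw, hCw, cw, hcw, Aw, hAw, hwin⟩ := win_exists hc₁
  obtain ⟨Cm, hCm, hm2⟩ := m2_quad C₀ hv0 hv
  obtain ⟨Ae, hAe, hexp⟩ := exp_small hCw hcw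
  refine ⟨76 * Cm * Cw, by nlinarith, cw, hcw, max Aw Ae, hAw.trans (le_max_left _ _), ?_⟩
  intro κ κ₁ hκ hAκ hκ₁ hκ₁' T ρ hρ g G hg hd hI B₀ hB C₂ C₃ δ hδ
  have hAw' : Aw * κ ≤ v := (mul_le_mul_of_nonneg_right (le_max_left _ _) hκ.le).trans hAκ
  have hAe' : Ae * κ ≤ v := (mul_le_mul_of_nonneg_right (le_max_right _ _) hκ.le).trans hAκ
  have h1000 : 1000 * κ ≤ v := (mul_le_mul_of_nonneg_right hAw hκ.le).trans hAw'
  obtain ⟨cG, hG⟩ := gok_gg hρ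
  obtain ⟨Ba, hadm⟩ := adm2 C₂ C₃
  obtain ⟨B', hp2⟩ := Pool.Agent.LSPP.p2_main hρ hB Ba
  obtain ⟨ea, hea, hquad⟩ := hm2 hρ hg hd hI κ κ₁ hκ h1000 hκ₁ hκ₁'
  obtain ⟨eb, heb, hcross⟩ := m2_cross hρ C₀ κ v κ₁ hκ h1000 hv hκ₁ hκ₁'
  obtain ⟨Cn, hCn, hnn⟩ := qn_nonneg hρ hB
  refine ⟨min (min ea eb) (κ₁ / 100000), by positivity, fun ε₂ hε₂ hε₂' => ?_⟩
  have hea' : ε₂ ≤ ea := hε₂'.trans ((min_le_left _ _).trans (min_le_left _ _))
  have heb' : ε₂ ≤ eb := hε₂'.trans ((min_le_left _ _).trans (min_le_right _ _))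
  have hek : ε₂ ≤ κ₁ / 100000 := hε₂'.trans (min_le_right _ _)
  have hek' : ε₂ ≤ κ₁ / 1000 := by linarith
  obtain ⟨X1, hX1⟩ := hwin κ v hκ hAw' (by linarith)
  obtain ⟨X2, hX2⟩ := hp2 κ v hκ h1000 hv (δ / 6) (by linarith)
  obtain ⟨X3, hX3⟩ := hquad ε₂ hε₂ hea'
  obtain ⟨X4, hX4⟩ := hcross ε₂ hε₂ heb'
  obtain ⟨X5, hX5⟩ := hadm B' κ v κ₁ hκ h1000 hv hκ₁ hκ₁' ε₂ hε₂ hek
  obtain ⟨X6, hX6⟩ := y_supp hκ h1000 hv hκ₁ hκ₁' hε₂ hek'
  obtain ⟨X7, hX7⟩ := Pool.Agent.LSPO2.o2_cross hG hB hκ h1000 hv (by linarith)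
  obtain ⟨X8, hX8⟩ := Pool.Agent.LSPO2.o2_quad hG hB hκ h1000 hv (by linarith)
  obtain ⟨X9, hX9⟩ := frz_cross_pr (C₁ := Cw) hG hB hκ h1000 hv
  obtain ⟨X10, hX10⟩ := frz_quad_pr (C₁ := Cw) hG hB hκ h1000 hv
  obtain ⟨X11, hX11⟩ := kerp_bound_pr hG hB hκ (by linarith)
  obtain ⟨X12, hX12⟩ := num_ev hκ h1000 hv hκ₁ hκ₁' hε₂ hek' B₀ Cn (δ := δ / 6) (by linarith)
  refine ⟨X1 + X2 + X3 + X4 + X5 + X6 + X7 + X8 + X9 + X10 + X11 + X12, fun X hX hgood => ?_⟩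
  obtain ⟨ep, J, dl, u, hW, hsum, hP⟩ := hX1 X (by omega) hgood
  obtain ⟨m, hm1, hm2', hmZ⟩ := hX2 X (by omega) J dl hW.dl0 hW.dl1 hW.len hW.len'
  have hnum := hX12 X (by omega)
  have hXr : (2 : ℝ) ≤ X := by exact_mod_cast hnum.two
  have hXr0 : (0 : ℝ) < X := by linarith
  have hlog : 0 < Real.log X := Real.log_pos (by linarith)
  have hdl := hW.dl0
  set M : ℝ := dl / (2 * Cw * (v * Real.log X)) with hM
  have hM0 : 0 < M := by positivity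
  set w : ℕ → ℝ := fun j => m j / (dl / (v * Real.log X)) with hw
  have hMw : ∀ j, M * w j = m j / (2 * Cw) := by
    intro j
    simp only [hM, hw]
    field_simp
  have hw0 : ∀ j, 0 ≤ w j := fun j => div_nonneg (hm1 j).1 (by positivity)
  have hw1 : ∀ j, |w j| ≤ 1 := by
    intro j
    rw [abs_of_nonneg (hw0 j)]
    simp only [hw]
    rw [div_le_one (by positivity)]
    exact (hm1 j).2
  set θ : ℕ → ℝ := thE J (fun _ => M) u (tr J (PB κ v X) u (fun x => w x.1)) with hθ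
  have hpm : ∀ p ∈ PB κ v X, p * ∑ j ∈ range J, M * u j p ≤ 1 := fun p hp =>
    pm_le hW hCw hv0 hnum.two (by linarith) hnum.n1 hp
  have htr0 : ∀ x, 0 ≤ tr J (PB κ v X) u (fun x => w x.1) x := by
    intro x
    unfold tr
    split_ifs
    · exact hw0 _
    · exact le_rfl
  have hpos : ∀ p ∈ PB κ v X, (0 : ℝ) < p := by
    intro p hp
    unfold PB at hp
    rw [mem_filter, mem_Icc] at hp
    exact_mod_cast hp.1.1
  have hsumθ : ∑ p ∈ PB κ v X, θ p / p = ∑ j ∈ range J, m j / (2 * Cw) := by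
    have h2 : ∀ p ∈ PB κ v X, θ p / p =
        ∑ j ∈ range J, M * u j p * tr J (PB κ v X) u (fun x => w x.1) (j, p) := by
      intro p hp
      rw [hθ]
      unfold thE
      rw [mul_div_cancel_left₀ _ (hpos p hp).ne']
    rw [sum_congr rfl h2, sum_comm]
    refine sum_congr rfl fun j hj => ?_
    have h3 : ∀ p ∈ PB κ v X, M * u j p * tr J (PB κ v X) u (fun x => w x.1) (j, p) =
        (M * w j) * u j p := by
      intro p hp
      rw [mul_assoc, tr_mul _ (mem_range.1 hj) hp]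
      ring
    rw [sum_congr rfl h3, ← mul_sum, hW.one j (mem_range.1 hj), mul_one, hMw]
  refine ⟨θ, ?_, ?_, ?_, ?_⟩
  · intro p hp
    have h1 : 0 ≤ θ p := by
      rw [hθ]
      unfold thE
      exact mul_nonneg (Nat.cast_nonneg _) (sum_nonneg fun j _ =>
        mul_nonneg (mul_nonneg hM0.le (hW.nonneg j p)) (htr0 _))
    refine ⟨h1, ?_⟩
    have h2 := thE_le (m := fun _ => M) (u := u) (fun _ => hM0.le) hW.nonneg
      (tr_le (J := J) (B := PB κ v X) (u := u) (θ := fun x => w x.1) (fun x _ => hw1 _))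
      (hpm p hp)
    exact (le_abs_self _).trans h2
  · rw [hsumθ, ← sum_div]
    calc κ / (76 * Cm * Cw * v) ≤ κ / (4 * Cw * v) := by
          apply div_le_div_of_nonneg_left hκ.le (by positivity)
          have : 4 * Cw * v ≤ 76 * (1 * Cw) * v := by nlinarith
          have h5 : 76 * (1 * Cw) * v ≤ 76 * (Cm * Cw) * v := by gcongr
          linarith
      _ = κ / (2 * v) / (2 * Cw) := by field_simp; ring
      _ ≤ _ := by gcongr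
  · rw [hsumθ, ← sum_div]
    have h1 : ∑ j ∈ range J, m j ≤ J * (dl / (v * Real.log X)) := by
      refine (sum_le_sum fun j _ => (hm1 j).2).trans ?_
      rw [sum_const, card_range, nsmul_eq_mul]
    have h2 : J * (dl / (v * Real.log X)) ≤ κ / v := by
      rw [mul_div_assoc', div_le_div_iff₀ (by positivity) hv0]
      have := mul_le_mul_of_nonneg_right hW.len hv0.le
      nlinarith
    have h3 : 0 ≤ κ / v := by positivity
    rw [div_le_iff₀ (by linarith)]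
    nlinarith
  · intro a ha hcn hab N hNp hN hN' t ht0 ht1
    have hNr : (X : ℝ) ≤ 2 * N := by exact_mod_cast hN
    have hNr' : (N : ℝ) ≤ 4 * X := by exact_mod_cast hN'
    obtain ⟨P, wN, hP1, hP2, hP3⟩ := hP N (by linarith) hNr'
    obtain ⟨s1, s2, s3, -, s5⟩ := hX6 X (by omega) a ha
    obtain ⟨ad1, ad2⟩ := hX5 X (by omega) a ha hab
    have hε0 : 0 < Cw * Real.exp (-(cw * v / κ)) := by positivity
    have d : Dat κ v κ₁ ε₂ B₀ Cn (δ / 6) T ρ X J dl Cw M ep u a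
        (Cw * Real.exp (-(cw * v / κ))) Cm :=
      { num := hnum
        h0 := hκ
        h1 := h1000
        h2 := hv
        h3 := hκ₁
        h4 := hκ₁'
        h5 := hε₂
        h6 := hek'
        hρ := hρ
        hB := hB
        win := hW
        hM := rfl
        hCw := hCw
        hε := hε0
        hε' := hexp κ v hκ hAe'
        eps := hsum
        hCm := hCm
        supp0 := s1
        supp1 := s2
        zero0 := s3
        suppT := s5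
        nonneg := fun N' h1 h2 x h3 h4 =>
          @hnn N' ⟨h1⟩ (E2 κ X) hnum.n15 h2 x h3 h4
        sh0 := fun N' h1 h2 => (hX3 X (by omega) a ha hcn N' h1 h2).1
        shT := fun N' h1 h2 => (hX3 X (by omega) a ha hcn N' h1 h2).2
        shC := fun N' h1 h2 => hX4 X (by omega) a ha hcn N' h1 h2
        ck01 := ad1.toCK2
        ck11 := ad2.toCK2
        o2c := fun N' h1 h2 h3 θ' h4 Q C h5 h6 =>
          hX7 X (by omega) N' h1 h2 h3 _ (Subset.refl _) θ' h4 Q C h5 h6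
        o2q := fun N' h1 h2 h3 θ' h4 Q C h5 h6 =>
          hX8 X (by omega) N' h1 h2 h3 _ (Subset.refl _) θ' h4 Q C h5 h6
        fzc := fun θ' h4 N' Z h1 h2 h3 h5 Q C h6 h7 => by
          refine hX9 X (by omega) J dl ep u hW (fun _ => M) (fun _ => ⟨hM0.le, ?_⟩) θ' h4 N' Z h1
            h2 h3 h5 Q C h6 h7
          rw [hM]
          apply div_le_div_of_nonneg_left hdl.le (by positivity)
          have : 0 < v * Real.log X := by positivity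
          nlinarith
        fzq := fun θ' h4 N' Z h1 h2 h3 h5 Q C h6 h7 => by
          refine hX10 X (by omega) J dl ep u hW (fun _ => M) (fun _ => ⟨hM0.le, ?_⟩) θ' h4 N' Z h1
            h2 h3 h5 Q C h6 h7
          rw [hM]
          apply div_le_div_of_nonneg_left hdl.le (by positivity)
          have : 0 < v * Real.log X := by positivity
          nlinarith
        kb := fun Q C h1 s Z h2 h3 h4 h5 ψ h6 => hX11 X (by omega) Q C h1 s Z h2 h3 h4 h5 ψ h6 }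
    obtain ⟨g1, g2⟩ := d.main hNp hN hN' hP1 hP2 hP3 hw1
    obtain ⟨z1, z2⟩ := hmZ N (by linarith) hNr'
    have p1 := z1 _ _ ?_ ad1
    · have p2 := z2 _ _ (Nat.floor_le (by positivity)) ad2
      have hq1 : ∑ j ∈ range J, M * w j * (KerP (GG ρ) B₀ κ X
          (CB (E2 κ X) (y0 κ₁ X a) (y1 κ v X a)) ⟨1, 1⟩ (Zj v X dl j) N).re =
          (∑ j ∈ range J, m j * (PsiK (CB (E2 κ X) (y0 κ₁ X a) (y1 κ v X a)) (GG ρ) (om2 κ X)
            (E2 κ X ^ 2) (Gs B₀ (E2 κ X)) (2 * (B₀ + 1) * E2 κ X) (R2 κ X) ⟨1, 1⟩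
              (Zj v X dl j) N).re) / (2 * Cw) := by
        rw [sum_div]
        refine sum_congr rfl fun j _ => ?_
        rw [hMw]
        ring
      have hq2 : ∑ j ∈ range J, ∑ k ∈ range J, M * w j * (M * w k) * (KerP (GG ρ) B₀ κ X
          (CB (E2 κ X) (y1 κ v X a) (y1 κ v X a)) ⟨1, 1⟩ (Zj v X dl j * Zj v X dl k) N).re =
          (∑ j ∈ range J, ∑ j' ∈ range J, m j * m j' *
            (PsiK (CB (E2 κ X) (y1 κ v X a) (y1 κ v X a)) (GG ρ) (om2 κ X)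
            (E2 κ X ^ 2) (Gs B₀ (E2 κ X)) (2 * (B₀ + 1) * E2 κ X) (R2 κ X) ⟨1, 1⟩
              (Zj v X dl j * Zj v X dl j') N).re) / (2 * Cw) / (2 * Cw) := by
        rw [sum_div, sum_div]
        refine sum_congr rfl fun j _ => ?_
        rw [sum_div, sum_div]
        refine sum_congr rfl fun k _ => ?_
        rw [hMw, hMw]
        ring
      rw [hq1] at g1
      rw [hq2] at g2
      have hadd := (qn_add hρ B₀ hnum.n15 (y0 κ₁ X a)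
        (Yv κ v X J M u a (fun x => w x.1)) (-t) hNp.one_le).2.2
      have hx2 : (fun e => y0 κ₁ X a e + (-t) * Yv κ v X J M u a (fun x => w x.1) e) =
          x2 κ v κ₁ t X θ a := by
        funext e
        unfold x2 Yv
        rw [hθ]
        ring
      rw [hx2, d.od0 (by omega)] at hadd
      rw [hadd]
      have hn := hnum.n11
      have b1 := div_two_le hCw p1
      have b2 := div_two_le hCw (div_two_le hCw p2)
      set ε := Cw * Real.exp (-(cw * v / κ)) with hεd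
      have hε64 : ε ≤ 1 / 64 := hexp κ v hκ hAe'
      have c1 := abs_le.1 g1
      have c2 := abs_le.1 g2
      have c3 := abs_le.1 b1
      have c4 := abs_le.1 b2
      have hCm0 : 0 < Cm := by linarith
      have hεε : ε ^ 2 ≤ ε := by nlinarith
      have d1 : -(ODB ρ B₀ (E2 κ X) (y0 κ₁ X a) (Yv κ v X J M u a (fun x => w x.1)) N) ≤
          20 * Cm * ε + δ / 3 := by linarith [c1.1, c3.1]
      have d2 : OD ρ B₀ (E2 κ X) (Yv κ v X J M u a (fun x => w x.1)) N ≤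
          36 * Cm * ε + δ / 3 := by
        have : 36 * Cm * ε ^ 2 ≤ 36 * Cm * ε := by gcongr
        linarith [c2.2, c4.2]
      have d3 : 2 * t * -(ODB ρ B₀ (E2 κ X) (y0 κ₁ X a)
          (Yv κ v X J M u a (fun x => w x.1)) N) ≤ 2 * t * (20 * Cm * ε + δ / 3) :=
        mul_le_mul_of_nonneg_left d1 (by linarith)
      have d4 : t ^ 2 * OD ρ B₀ (E2 κ X) (Yv κ v X J M u a (fun x => w x.1)) N ≤
          t ^ 2 * (36 * Cm * ε + δ / 3) := mul_le_mul_of_nonneg_left d2 (sq_nonneg t)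
      have d5 : t ^ 2 ≤ t := by nlinarith
      have d6 : t ^ 2 * (36 * Cm * ε + δ / 3) ≤ t * (36 * Cm * ε + δ / 3) :=
        mul_le_mul_of_nonneg_right d5 (by positivity)
      have d7 : t * δ ≤ δ := by nlinarith
      have d8 : 76 * Cm * Cw * t * Real.exp (-(cw * v / κ)) = 76 * Cm * ε * t := by
        rw [hεd]
        ring
      rw [d8]
      have d9 : ∀ O Q : ℝ, 0 + 2 * -t * O + (-t) ^ 2 * Q = 2 * t * -O + t ^ 2 * Q := fun O Q => by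
        ring
      rw [d9]
      have d10 : 2 * t * (20 * Cm * ε + δ / 3) + t * (36 * Cm * ε + δ / 3) =
          76 * Cm * ε * t + t * δ := by ring
      linarith
    · refine (Nat.floor_le (by positivity)).trans ?_
      exact Real.rpow_le_rpow_of_exponent_le (by linarith) (by linarith)

end Pool.Agent.LSP
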