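import Pool.Agent.Lib_helper41.LSP2.Defs2

/-! LSP2, instance of part B: symmetry of the kernels. -/

set_option autoImplicit false

open Finset Filter
open scoped ComplexConjugate
namespace Pool.Agent.LSPI
open Pool.Agent.LEV Pool.Agent.LVB Pool.Agent.KSL
open Pool.Agent.LSP (kap PsiK KerP)
open Pool.Agent.FG61 (mu phi cc ff AA Lam)

theorem cj_chr {n : ℕ} (χ : DirichletCharacter ℂ n) (a : ZMod n) : conj (χ⁻¹ a) = χ a := by
  have h := MulChar.star_apply' χ a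
  rw [← h]
  simp

theorem kap_cj (c : ℕ) (ψ : Σ q : ℕ, DirichletCharacter ℂ q) (m : ℕ) (g : ℤ) :
    kap c ⟨ψ.1, ψ.2⁻¹⟩ m g = conj (kap c ψ m g) := by
  unfold kap
  rw [map_mul, map_sum]
  congr 1
  · simp
  · refine sum_congr rfl fun u _ => ?_
    rw [map_mul, Complex.conj_ofReal, Complex.conj_conj]
    simp only
    rw [cj_chr]

theorem kerp_cj (G : ℝ → ℝ) (B₀ : ℕ) (κ : ℝ) (X : ℕ) (C : ℕ → ℝ)
    (ψ : Σ q : ℕ, DirichletCharacter ℂ q) (s Z : ℝ) :
    KerP G B₀ κ X C ⟨ψ.1, ψ.2⁻¹⟩ s Z = conj (KerP G B₀ κ X C ψ s Z) := by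
  unfold KerP PsiK
  simp only [map_mul, map_sum, Complex.conj_ofReal]
  congr 1
  · congr 1
    exact (Complex.conj_ofNat 4).symm
  · refine sum_congr rfl fun m _ => ?_
    congr 1
    refine sum_congr rfl fun g _ => ?_
    congr 1
    refine sum_congr rfl fun c _ => ?_
    rw [kap_cj]

end Pool.Agent.LSPI
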