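import Pool.Agent.Lib_helper53.LSPI.Num
import Pool.Agent.Lib_helper14.LSPB.Main
import Pool.Agent.Lib_helper41.LSPG.GOKB

/-! LSP2, instance of part B: the level is fixed. -/

set_option autoImplicit false

open Finset Filter
open scoped ComplexConjugate

namespace Pool.Agent.LSPI

open Pool.Agent.LSP Pool.Agent.GA Pool.Agent.Var73 Pool.Agent.LSPB

/-- the vector of a function of pairs -/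
noncomputable def Yv (κ v : ℝ) (X J : ℕ) (M : ℝ) (u : ℕ → ℕ → ℝ) (a : ℕ → ℝ) (θ : ℕ × ℕ → ℝ) :
    ℕ → ℝ :=
  YT (PB κ v X) (thE J (fun _ => M) u (tr J (PB κ v X) u θ)) (y1 κ v X a)

/-- the data at a fixed `X` -/
structure Dat (κ v κ₁ ε₂ : ℝ) (B₀ : ℕ) (Cn δ : ℝ) (T : ℝ) (ρ : ℝ → ℝ) (X J : ℕ) (dl Cw M : ℝ)
    (ep : (q : ℕ) → DirichletCharacter ℂ q → ℝ) (u : ℕ → ℕ → ℝ) (a : ℕ → ℝ) (ε Cm : ℝ) : Prop where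
  num : Num κ v κ₁ ε₂ B₀ Cn δ X
  h0 : 0 < κ
  h1 : 1000 * κ ≤ v
  h2 : v ≤ 1 / 80
  h3 : 0 < κ₁
  h4 : κ₁ ≤ κ
  h5 : 0 < ε₂
  h6 : ε₂ ≤ κ₁ / 1000
  hρ : KerL T ρ
  hB : 1 + T ^ 2 ≤ (B₀ : ℝ)
  win : Win κ v Cw X J dl ep u
  hM : M = dl / (2 * Cw * (v * Real.log X))
  hCw : 1 ≤ Cw
  hε : 0 < ε
  hε' : ε ≤ 1 / 64
  eps : ∑ q ∈ Icc 1 ⌊(X : ℝ) ^ (496 * κ)⌋₊, ∑ χ ∈ Prm q, ep q χ ≤ ε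
  hCm : 1 ≤ Cm
  supp0 : ∀ e, y0 κ₁ X a e ≠ 0 → 1 ≤ e ∧ (e : ℝ) ≤ (X : ℝ) ^ (1 / 2 - κ₁ + 2 * ε₂)
  supp1 : ∀ e, y1 κ v X a e ≠ 0 → 1 ≤ e ∧ (e : ℝ) ≤ (X : ℝ) ^ (1 / 2 - v + κ + 2 * ε₂)
  zero0 : ∑ e ∈ Icc 1 (E2 κ X), y0 κ₁ X a e * sg1 e / e = 0
  suppT : ∀ θ : ℕ → ℝ,
      (∀ e, YT (PB κ v X) θ (y1 κ v X a) e ≠ 0 → 1 ≤ e ∧ (e : ℝ) ≤ (X : ℝ) ^ (1 / 2 + 5 / 2 * κ)) ∧
      ∑ e ∈ Icc 1 (E2 κ X), YT (PB κ v X) θ (y1 κ v X a) e * sg1 e / e = 0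
  nonneg : ∀ N : ℕ, N.Prime → Cn * E2 κ X ≤ N → ∀ x : ℕ → ℝ, (∀ e, x e ≠ 0 → 1 ≤ e ∧ e ≤ E2 κ X) →
    ∑ e ∈ Icc 1 (E2 κ X), x e * sg1 e / e = 0 → 0 ≤ QN ρ T B₀ (E2 κ X) x N
  sh0 : ∀ N : ℕ, X ≤ 4 * N → N ≤ 8 * X → LSP.sh ρ T (E2 κ X) (y0 κ₁ X a) N ≤ Cm
  shT : ∀ N : ℕ, X ≤ 4 * N → N ≤ 8 * X → ∀ θ : ℕ → ℝ, (∀ p ∈ PB κ v X, |θ p| ≤ 1) →
    LSP.sh ρ T (E2 κ X) (YT (PB κ v X) θ (y1 κ v X a)) N ≤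
      Cm * ∑ p ∈ PB κ v X, θ p ^ 2 / p + (X : ℝ) ^ (-(20 * κ))
  shC : ∀ N : ℕ, X ≤ 4 * N → N ≤ 8 * X → ∃ S : ℝ → ℝ,
    (∀ s t, |S s - S t| ≤ (X : ℝ) ^ (10 * κ) * |s - t|) ∧
    ∀ θ : ℕ → ℝ, (∀ p ∈ PB κ v X, |θ p| ≤ 1) →
      |shB ρ T (E2 κ X) (y0 κ₁ X a) (YT (PB κ v X) θ (y1 κ v X a)) N -
        ∑ p ∈ PB κ v X, θ p / p * S (Real.log p)| ≤ (X : ℝ) ^ (-(20 * κ))
  ck01 : CK2 κ X ⌊(X : ℝ) ^ (1 - v + 2 * κ)⌋₊ (CB (E2 κ X) (y0 κ₁ X a) (y1 κ v X a))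
  ck11 : CK2 κ X ⌊(X : ℝ) ^ (1 - 2 * v + 3 * κ)⌋₊ (CB (E2 κ X) (y1 κ v X a) (y1 κ v X a))
  o2c : ∀ N : ℕ, N.Prime → X ≤ 4 * N → N ≤ 8 * X → ∀ θ : ℕ → ℝ, (∀ p ∈ PB κ v X, |θ p| ≤ 1) →
    ∀ (Q : ℕ) (C : ℕ → ℝ), CK2 κ X Q C → (Q : ℝ) * (X : ℝ) ^ (v + κ) ≤ (X : ℝ) ^ (1 + 5 * κ) →
      |LSPO.ODg (CY (PB κ v X) θ C) (GG ρ) (E2 κ X ^ 2) (Gs B₀ (E2 κ X)) N -
        SMP (GG ρ) B₀ κ X (CY (PB κ v X) θ C) N| ≤ (X : ℝ) ^ (-(20 * κ))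
  o2q : ∀ N : ℕ, N.Prime → X ≤ 4 * N → N ≤ 8 * X → ∀ θ : ℕ → ℝ, (∀ p ∈ PB κ v X, |θ p| ≤ 1) →
    ∀ (Q : ℕ) (C : ℕ → ℝ), CK2 κ X Q C →
      (Q : ℝ) * (X : ℝ) ^ (2 * (v + κ)) ≤ (X : ℝ) ^ (1 + 5 * κ) →
      |LSPO.ODg (CY (PB κ v X) θ (CY (PB κ v X) θ C)) (GG ρ) (E2 κ X ^ 2) (Gs B₀ (E2 κ X)) N -
        SMP (GG ρ) B₀ κ X (CY (PB κ v X) θ (CY (PB κ v X) θ C)) N| ≤ (X : ℝ) ^ (-(20 * κ))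
  fzc : ∀ θ : ℕ × ℕ → ℝ, (∀ z, |θ z| ≤ 1) → ∀ (N : ℕ) (Z : ℝ), N.Prime → (X : ℝ) / 2 ≤ Z →
    Z ≤ 4 * X → |Real.log ((N : ℝ) / Z)| ≤ (X : ℝ) ^ (-(132 * κ)) →
    ∀ (Q : ℕ) (C : ℕ → ℝ), CK2 κ X Q C → (Q : ℝ) * (X : ℝ) ^ (v + κ) ≤ (X : ℝ) ^ (1 + 5 * κ) →
      |SMP (GG ρ) B₀ κ X (CY (PB κ v X) (thE J (fun _ => M) u θ) C) N -
        (∑ ψ ∈ Chs (R2 κ X), conj (ψ.2 (N : ZMod ψ.1)) * ∑ j ∈ Finset.range J,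
          (∑ p ∈ PB κ v X, ((M * u j p * θ (j, p) : ℝ) : ℂ) * ψ.2 (p : ZMod ψ.1)) *
            KerP (GG ρ) B₀ κ X C ψ (Zj v X dl j) Z).re| ≤ (X : ℝ) ^ (-(20 * κ))
  fzq : ∀ θ : ℕ × ℕ → ℝ, (∀ z, |θ z| ≤ 1) → ∀ (N : ℕ) (Z : ℝ), N.Prime → (X : ℝ) / 2 ≤ Z →
    Z ≤ 4 * X → |Real.log ((N : ℝ) / Z)| ≤ (X : ℝ) ^ (-(132 * κ)) →
    ∀ (Q : ℕ) (C : ℕ → ℝ), CK2 κ X Q C →
    (Q : ℝ) * (X : ℝ) ^ (2 * (v + κ)) ≤ (X : ℝ) ^ (1 + 5 * κ) →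
      |SMP (GG ρ) B₀ κ X (CY (PB κ v X) (thE J (fun _ => M) u θ)
          (CY (PB κ v X) (thE J (fun _ => M) u θ) C)) N -
        (∑ ψ ∈ Chs (R2 κ X), conj (ψ.2 (N : ZMod ψ.1)) * ∑ j ∈ Finset.range J,
          ∑ j' ∈ Finset.range J,
          (∑ p ∈ PB κ v X, ((M * u j p * θ (j, p) : ℝ) : ℂ) * ψ.2 (p : ZMod ψ.1)) *
          (∑ p ∈ PB κ v X, ((M * u j' p * θ (j', p) : ℝ) : ℂ) * ψ.2 (p : ZMod ψ.1)) *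
            KerP (GG ρ) B₀ κ X C ψ (Zj v X dl j * Zj v X dl j') Z).re| ≤ (X : ℝ) ^ (-(20 * κ))
  kb : ∀ (Q : ℕ) (C : ℕ → ℝ), CK2 κ X Q C → ∀ s Z : ℝ, 1 ≤ s → Q * s ≤ (X : ℝ) ^ (1 + 6 * κ) →
    (X : ℝ) / 2 ≤ Z → Z ≤ 4 * X → ∀ ψ ∈ Chs (R2 κ X),
      ‖KerP (GG ρ) B₀ κ X C ψ s Z‖ ≤ (X : ℝ) ^ (8 * κ)

section

variable {κ v κ₁ ε₂ : ℝ} {B₀ : ℕ} {Cn δ : ℝ} {T : ℝ} {ρ : ℝ → ℝ} {X J : ℕ} {dl Cw M : ℝ}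
  {ep : (q : ℕ) → DirichletCharacter ℂ q → ℝ} {u : ℕ → ℕ → ℝ} {a : ℕ → ℝ} {ε Cm : ℝ}

theorem Dat.v0 (d : Dat κ v κ₁ ε₂ B₀ Cn δ T ρ X J dl Cw M ep u a ε Cm) : 0 < v := by
  have := d.h0
  have := d.h1
  linarith

theorem Dat.X2 (d : Dat κ v κ₁ ε₂ B₀ Cn δ T ρ X J dl Cw M ep u a ε Cm) : (2 : ℝ) ≤ X := by
  exact_mod_cast d.num.two

theorem Dat.M0 (d : Dat κ v κ₁ ε₂ B₀ Cn δ T ρ X J dl Cw M ep u a ε Cm) : 0 < M := by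
  have h1 := d.win.dl0
  have h2 := d.hCw
  have h3 := d.v0
  have h4 := d.X2
  have h5 : 0 < Real.log X := Real.log_pos (by linarith)
  rw [d.hM]
  positivity

theorem Dat.M1 (d : Dat κ v κ₁ ε₂ B₀ Cn δ T ρ X J dl Cw M ep u a ε Cm) :
    ∑ _j ∈ range J, M ≤ 1 := by
  have h1 := d.win.dl0
  have h2 := d.hCw
  have h3 := d.v0
  have h4 := d.X2
  have h5 : 0 < Real.log X := Real.log_pos (by linarith)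
  have h6 := d.win.len
  have h7 := d.h0
  have h8 := d.h1
  rw [sum_const, card_range, nsmul_eq_mul, d.hM, ← mul_div_assoc, div_le_one (by positivity)]
  have h9 : κ * Real.log X ≤ v * Real.log X := by
    apply mul_le_mul_of_nonneg_right _ h5.le
    linarith
  have h10 : v * Real.log X ≤ 2 * Cw * (v * Real.log X) := by
    have : 0 < v * Real.log X := by positivity
    nlinarith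
  linarith

theorem Dat.pm (d : Dat κ v κ₁ ε₂ B₀ Cn δ T ρ X J dl Cw M ep u a ε Cm) :
    ∀ p ∈ PB κ v X, p * ∑ j ∈ range J, M * u j p ≤ 1 := by
  intro p hp
  rw [d.hM]
  have h7 := d.h0
  have h8 := d.h1
  exact pm_le d.win d.hCw d.v0 d.num.two (by linarith) d.num.n1 hp

theorem Dat.th1 (d : Dat κ v κ₁ ε₂ B₀ Cn δ T ρ X J dl Cw M ep u a ε Cm) {θ : ℕ × ℕ → ℝ}
    (hθ : ∀ x ∈ PPp J (PB κ v X) u, |θ x| ≤ 1) :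
    ∀ p ∈ PB κ v X, |thE J (fun _ => M) u (tr J (PB κ v X) u θ) p| ≤ 1 := fun p hp =>
  thE_le (fun _ => d.M0.le) d.win.nonneg (tr_le hθ) (d.pm p hp)

/-- the primes near `N` -/
def NNs (κ : ℝ) (X N : ℕ) : Set ℕ :=
  {N' | N'.Prime ∧ |Real.log ((N' : ℝ) / N)| ≤ (X : ℝ) ^ (-(132 * κ))}

theorem Dat.nn (d : Dat κ v κ₁ ε₂ B₀ Cn δ T ρ X J dl Cw M ep u a ε Cm) {N : ℕ} (hN : X ≤ 2 * N)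
    (hN' : N ≤ 4 * X) : ∀ N' ∈ NNs κ X N, N'.Prime ∧ X ≤ 4 * N' ∧ N' ≤ 8 * X ∧ R2 κ X < N' := by
  rintro N' ⟨h1, h2⟩
  have hX2 := d.X2
  have hX0 : (0 : ℝ) < X := by linarith
  have h3 : (X : ℝ) ^ (-(132 * κ)) ≤ 1 / 2 := by
    rw [Real.rpow_neg hX0.le, ← one_div]
    exact one_div_le_one_div_of_le (by norm_num) d.num.n13
  have hp : (0 : ℝ) < N' := by exact_mod_cast h1.pos
  have hNr : (X : ℝ) ≤ 2 * N := by exact_mod_cast hN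
  have hNr' : (N : ℝ) ≤ 4 * X := by exact_mod_cast hN'
  have hN0 : (0 : ℝ) < N := by linarith
  have h4 := abs_le.1 (h2.trans h3)
  have h5 : Real.log 2 > 1 / 2 := by have := Real.log_two_gt_d9; linarith
  have h6 : (N' : ℝ) / N ≤ 2 := by
    rw [← Real.log_le_log_iff (by positivity) (by norm_num)]
    linarith [h4.2]
  have h7 : 1 / 2 ≤ (N' : ℝ) / N := by
    rw [← Real.log_le_log_iff (by norm_num) (by positivity)]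
    have : Real.log (1 / 2) = - Real.log 2 := by rw [one_div, Real.log_inv]
    rw [this]
    linarith [h4.1]
  rw [div_le_iff₀ hN0] at h6
  rw [le_div_iff₀ hN0] at h7
  refine ⟨h1, ?_, ?_, ?_⟩
  · have : (X : ℝ) ≤ 4 * N' := by linarith
    exact_mod_cast this
  · have : (N' : ℝ) ≤ 8 * X := by linarith
    exact_mod_cast this
  · have h8 := d.num.n14
    have : (R2 κ X : ℝ) < N' := by linarith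
    exact_mod_cast this

end

end Pool.Agent.LSPI
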