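import Pool.Agent.Lib_helper53.LSPI.Core

/-! LSP2, instance of part B: the level is fixed, conclusions. -/

set_option autoImplicit false

open Finset Filter
open scoped ComplexConjugate

namespace Pool.Agent.LSPI

open Pool.Agent.LSP Pool.Agent.GA Pool.Agent.Var73 Pool.Agent.LSPB

section

variable {κ v κ₁ ε₂ : ℝ} {B₀ : ℕ} {Cn δ : ℝ} {T : ℝ} {ρ : ℝ → ℝ} {X J : ℕ} {dl Cw M : ℝ}
  {ep : (q : ℕ) → DirichletCharacter ℂ q → ℝ} {u : ℕ → ℕ → ℝ} {a : ℕ → ℝ} {ε Cm : ℝ}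

theorem Dat.pb (_d : Dat κ v κ₁ ε₂ B₀ Cn δ T ρ X J dl Cw M ep u a ε Cm) {p : ℕ}
    (hp : p ∈ PB κ v X) : p.Prime ∧ (p : ℝ) ≤ 2 * (X : ℝ) ^ (v + κ) ∧ (X : ℝ) ^ v / 2 ≤ p := by
  unfold PB at hp
  rw [mem_filter, mem_Icc] at hp
  obtain ⟨⟨-, hp2⟩, hp3, hp4⟩ := hp
  exact ⟨hp3, le_trans (by exact_mod_cast hp2) (Nat.floor_le (by positivity)), hp4⟩

theorem Dat.q1 (d : Dat κ v κ₁ ε₂ B₀ Cn δ T ρ X J dl Cw M ep u a ε Cm) :
    ((⌊(X : ℝ) ^ (1 - v + 2 * κ)⌋₊ : ℕ) : ℝ) * (X : ℝ) ^ (v + κ) ≤ (X : ℝ) ^ (1 + 3 * κ) := by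
  have hX2 := d.X2
  have hX0 : (0 : ℝ) < X := by linarith
  calc ((⌊(X : ℝ) ^ (1 - v + 2 * κ)⌋₊ : ℕ) : ℝ) * (X : ℝ) ^ (v + κ)
      ≤ (X : ℝ) ^ (1 - v + 2 * κ) * (X : ℝ) ^ (v + κ) := by
        gcongr
        exact Nat.floor_le (by positivity)
    _ = (X : ℝ) ^ (1 + 3 * κ) := by
        rw [← Real.rpow_add hX0]
        congr 1
        ring

theorem Dat.q2 (d : Dat κ v κ₁ ε₂ B₀ Cn δ T ρ X J dl Cw M ep u a ε Cm) :
    ((⌊(X : ℝ) ^ (1 - 2 * v + 3 * κ)⌋₊ : ℕ) : ℝ) * (X : ℝ) ^ (2 * (v + κ)) ≤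
      (X : ℝ) ^ (1 + 5 * κ) := by
  have hX2 := d.X2
  have hX0 : (0 : ℝ) < X := by linarith
  calc ((⌊(X : ℝ) ^ (1 - 2 * v + 3 * κ)⌋₊ : ℕ) : ℝ) * (X : ℝ) ^ (2 * (v + κ))
      ≤ (X : ℝ) ^ (1 - 2 * v + 3 * κ) * (X : ℝ) ^ (2 * (v + κ)) := by
        gcongr
        exact Nat.floor_le (by positivity)
    _ = (X : ℝ) ^ (1 + 5 * κ) := by
        rw [← Real.rpow_add hX0]
        congr 1
        ring

theorem Dat.xle (d : Dat κ v κ₁ ε₂ B₀ Cn δ T ρ X J dl Cw M ep u a ε Cm) {b c : ℝ} (h : b ≤ c) :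
    (X : ℝ) ^ b ≤ (X : ℝ) ^ c :=
  Real.rpow_le_rpow_of_exponent_le (by linarith [d.X2]) h

theorem Dat.e0 (d : Dat κ v κ₁ ε₂ B₀ Cn δ T ρ X J dl Cw M ep u a ε Cm) (e : ℕ)
    (he : y0 κ₁ X a e ≠ 0) : 1 ≤ e ∧ e ≤ E2 κ X := by
  obtain ⟨h1, h2⟩ := d.supp0 e he
  refine ⟨h1, ?_⟩
  unfold E2
  rw [Nat.le_floor_iff (by positivity)]
  have h5 := d.h5
  have h6 := d.h6
  have h3 := d.h3
  have h0 := d.h0
  exact h2.trans (d.xle (by linarith))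

/-- the coefficients below the square root have no off-diagonal terms -/
theorem Dat.od0 (d : Dat κ v κ₁ ε₂ B₀ Cn δ T ρ X J dl Cw M ep u a ε Cm) {N : ℕ} (hN : X ≤ 4 * N) :
    OD ρ B₀ (E2 κ X) (y0 κ₁ X a) N = 0 := by
  rw [od_eq]
  refine od_zero d.hρ d.hB fun n hn => ?_
  have hX2 := d.X2
  have hX0 : (0 : ℝ) < X := by linarith
  have h1 := cb_le (fun e he => (d.supp0 e he).2) (fun e he => (d.supp0 e he).2) hn
  have h2 : (X : ℝ) ^ (1 / 2 - κ₁ + 2 * ε₂) * (X : ℝ) ^ (1 / 2 - κ₁ + 2 * ε₂) =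
      (X : ℝ) ^ (1 - 2 * κ₁ + 4 * ε₂) := by
    rw [← Real.rpow_add hX0]
    congr 1
    ring
  rw [h2] at h1
  have h3 := d.num.n9
  have hNr : (X : ℝ) ≤ 4 * N := by exact_mod_cast hN
  have h4 : (0 : ℝ) ≤ B₀ := Nat.cast_nonneg _
  have h5 : (n : ℝ) * B₀ ≤ (X : ℝ) ^ (1 - 2 * κ₁ + 4 * ε₂) * B₀ := by gcongr
  have h6 : 0 < (X : ℝ) ^ (1 - 2 * κ₁ + 4 * ε₂) := by positivity
  have h7 : (n : ℝ) * B₀ < N := by nlinarith
  exact_mod_cast h7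

theorem Dat.expL (d : Dat κ v κ₁ ε₂ B₀ Cn δ T ρ X J dl Cw M ep u a ε Cm) {N : ℕ}
    (hN : X ≤ 2 * N) (hN' : N ≤ 4 * X) {N' : ℕ} (hn : N' ∈ NNs κ X N) (θ : ℕ × ℕ → ℝ)
    (hθ : ∀ x ∈ PPp J (PB κ v X) u, |θ x| ≤ 1) :
    |QB ρ T B₀ (E2 κ X) (y0 κ₁ X a) (Yv κ v X J M u a θ) N' -
      shB ρ T (E2 κ X) (y0 κ₁ X a) (Yv κ v X J M u a θ) N' -
      (∑ i ∈ PsiR (R2 κ X), conj (chrEv i N') * ∑ j ∈ range J,
        Aw (PB κ v X) (fun _ => M) u θ i j *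
          KerP (GG ρ) B₀ κ X (CB (E2 κ X) (y0 κ₁ X a) (y1 κ v X a)) i (Zj v X dl j) N).re| ≤
      2 * (X : ℝ) ^ (-(20 * κ)) := by
  obtain ⟨h1, h2, h3, -⟩ := d.nn hN hN' N' hn
  have hX2 := d.X2
  have hX0 : (0 : ℝ) < X := by linarith
  have hNr : (X : ℝ) ≤ 2 * N := by exact_mod_cast hN
  have hNr' : (N : ℝ) ≤ 4 * X := by exact_mod_cast hN'
  have hN4 : (X : ℝ) ≤ 4 * N' := by exact_mod_cast h2
  have e1 : QB ρ T B₀ (E2 κ X) (y0 κ₁ X a) (Yv κ v X J M u a θ) N' -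
      shB ρ T (E2 κ X) (y0 κ₁ X a) (Yv κ v X J M u a θ) N' =
      LSPO.ODg (CY (PB κ v X) (thE J (fun _ => M) u (tr J (PB κ v X) u θ))
        (CB (E2 κ X) (y0 κ₁ X a) (y1 κ v X a))) (GG ρ) (E2 κ X ^ 2) (Gs B₀ (E2 κ X)) N' := by
    unfold QB
    rw [add_sub_cancel_left]
    refine od_cross d.hρ d.hB d.e0 (fun p hp => (d.pb hp).1) _ fun n p hp hne => ?_
    have h4 : ((p * n : ℕ) : ℝ) ≤ (X : ℝ) ^ (1 - v + 2 * κ) :=
      le_trans (by exact_mod_cast d.ck01.supp _ hne) (Nat.floor_le (by positivity))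
    have h5 : (n : ℝ) ≤ ((p * n : ℕ) : ℝ) := by
      exact_mod_cast Nat.le_mul_of_pos_left n (d.pb hp).1.pos
    have h6 := d.num.n6
    have h7 : (0 : ℝ) ≤ B₀ := Nat.cast_nonneg _
    have h8 : (n : ℝ) * B₀ ≤ (X : ℝ) ^ (1 - v + 2 * κ) * B₀ := by
      have := h5.trans h4
      gcongr
    have h9 : 0 < (X : ℝ) ^ (1 - v + 2 * κ) := by positivity
    have h10 : (n : ℝ) * B₀ < N' := by nlinarith
    exact_mod_cast h10
  rw [e1]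
  have e2 := d.o2c N' h1 h2 h3 _ (d.th1 hθ) _ _ d.ck01 (d.q1.trans (d.xle (by linarith [d.h0])))
  have e3 := d.fzc (tr J (PB κ v X) u θ) (tr_le hθ) N' N h1 (by linarith) hNr' hn.2 _ _ d.ck01
    (d.q1.trans (d.xle (by linarith [d.h0])))
  have e4 : ∀ i : Chr, ∑ j ∈ range J,
      (∑ p ∈ PB κ v X, ((M * u j p * tr J (PB κ v X) u θ (j, p) : ℝ) : ℂ) *
        i.2 (p : ZMod i.1)) *
        KerP (GG ρ) B₀ κ X (CB (E2 κ X) (y0 κ₁ X a) (y1 κ v X a)) i (Zj v X dl j) N =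
      ∑ j ∈ range J, Aw (PB κ v X) (fun _ => M) u θ i j *
        KerP (GG ρ) B₀ κ X (CB (E2 κ X) (y0 κ₁ X a) (y1 κ v X a)) i (Zj v X dl j) N := by
    intro i
    refine sum_congr rfl fun j hj => ?_
    rw [← Aw_tr (fun _ => M) θ (mem_range.1 hj) i]
  simp only [e4] at e3
  have e5 := abs_le.1 e2
  have e6 := abs_le.1 e3
  rw [abs_le]
  constructor
  · have := e5.1
    have := e6.1
    linarith!
  · have := e5.2
    have := e6.2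
    linarith!

theorem Dat.expQ (d : Dat κ v κ₁ ε₂ B₀ Cn δ T ρ X J dl Cw M ep u a ε Cm) {N : ℕ}
    (hN : X ≤ 2 * N) (hN' : N ≤ 4 * X) {N' : ℕ} (hn : N' ∈ NNs κ X N) (θ : ℕ × ℕ → ℝ)
    (hθ : ∀ x ∈ PPp J (PB κ v X) u, |θ x| ≤ 1) :
    |QN ρ T B₀ (E2 κ X) (Yv κ v X J M u a θ) N' -
      LSP.sh ρ T (E2 κ X) (Yv κ v X J M u a θ) N' -
      (∑ i ∈ PsiR (R2 κ X), conj (chrEv i N') * ∑ j ∈ range J, ∑ k ∈ range J,
        Aw (PB κ v X) (fun _ => M) u θ i j * Aw (PB κ v X) (fun _ => M) u θ i k *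
          KerP (GG ρ) B₀ κ X (CB (E2 κ X) (y1 κ v X a) (y1 κ v X a)) i
            (Zj v X dl j * Zj v X dl k) N).re| ≤
      2 * (X : ℝ) ^ (-(20 * κ)) := by
  obtain ⟨h1, h2, h3, -⟩ := d.nn hN hN' N' hn
  have hX2 := d.X2
  have hX0 : (0 : ℝ) < X := by linarith
  have hNr : (X : ℝ) ≤ 2 * N := by exact_mod_cast hN
  have hNr' : (N : ℝ) ≤ 4 * X := by exact_mod_cast hN'
  have hN4 : (X : ℝ) ≤ 4 * N' := by exact_mod_cast h2
  have h0 := d.h0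
  have hv := d.v0
  have e1 : QN ρ T B₀ (E2 κ X) (Yv κ v X J M u a θ) N' -
      LSP.sh ρ T (E2 κ X) (Yv κ v X J M u a θ) N' =
      LSPO.ODg (CY (PB κ v X) (thE J (fun _ => M) u (tr J (PB κ v X) u θ))
        (CY (PB κ v X) (thE J (fun _ => M) u (tr J (PB κ v X) u θ))
        (CB (E2 κ X) (y1 κ v X a) (y1 κ v X a)))) (GG ρ) (E2 κ X ^ 2) (Gs B₀ (E2 κ X)) N' := by
    unfold QN
    rw [add_sub_cancel_left, od_eq]
    refine od_quad d.hρ d.hB (fun e he => (d.supp1 e he).1) (fun p hp => (d.pb hp).1)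
      (fun e he p hp => ?_) _ (fun n hne p hp q hq => ?_)
    · have h4 := (d.supp1 e he).2
      have h5 := (d.pb hp).2.1
      unfold E2
      rw [Nat.le_floor_iff (by positivity)]
      push_cast
      calc (p : ℝ) * e ≤ (2 * (X : ℝ) ^ (v + κ)) * (X : ℝ) ^ (1 / 2 - v + κ + 2 * ε₂) := by
            gcongr
        _ = 2 * (X : ℝ) ^ (1 / 2 + 2 * κ + 2 * ε₂) := by
            rw [mul_assoc, ← Real.rpow_add hX0]
            congr 2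
            ring
        _ ≤ _ := d.num.n7
    · have h4 : (n : ℝ) ≤ (X : ℝ) ^ (1 - 2 * v + 3 * κ) :=
        le_trans (by exact_mod_cast d.ck11.supp _ hne) (Nat.floor_le (by positivity))
      have h5 := (d.pb hp).2.2
      have h6 := (d.pb hq).2.1
      have h7 : (0 : ℝ) ≤ B₀ := Nat.cast_nonneg _
      have h8 := d.num.n8
      have h9 : (q : ℝ) * n * B₀ ≤ 2 * (X : ℝ) ^ (1 - v + 4 * κ) * B₀ := by
        calc (q : ℝ) * n * B₀ ≤ (2 * (X : ℝ) ^ (v + κ)) * (X : ℝ) ^ (1 - 2 * v + 3 * κ) * B₀ := by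
              gcongr
          _ = 2 * (X : ℝ) ^ (1 - v + 4 * κ) * B₀ := by
              rw [mul_assoc 2, ← Real.rpow_add hX0]
              congr 3
              ring
      have h10 : (X : ℝ) ^ (1 + v) / 8 ≤ p * N' := by
        calc (X : ℝ) ^ (1 + v) / 8 = ((X : ℝ) ^ v / 2) * (X / 4) := by
              rw [add_comm, Real.rpow_add hX0, Real.rpow_one]
              ring
          _ ≤ p * N' := by
              gcongr
              linarith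
      have h11 : 0 < (X : ℝ) ^ (1 - v + 4 * κ) := by positivity
      have h12 : (q : ℝ) * n * B₀ < p * N' := by nlinarith
      exact_mod_cast h12
  rw [e1]
  have e2 := d.o2q N' h1 h2 h3 _ (d.th1 hθ) _ _ d.ck11 d.q2
  have e3 := d.fzq (tr J (PB κ v X) u θ) (tr_le hθ) N' N h1 (by linarith) hNr' hn.2 _ _ d.ck11
    d.q2
  have e4 : ∀ i : Chr, ∑ j ∈ range J, ∑ k ∈ range J,
      (∑ p ∈ PB κ v X, ((M * u j p * tr J (PB κ v X) u θ (j, p) : ℝ) : ℂ) *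
        i.2 (p : ZMod i.1)) *
      (∑ p ∈ PB κ v X, ((M * u k p * tr J (PB κ v X) u θ (k, p) : ℝ) : ℂ) *
        i.2 (p : ZMod i.1)) *
        KerP (GG ρ) B₀ κ X (CB (E2 κ X) (y1 κ v X a) (y1 κ v X a)) i
          (Zj v X dl j * Zj v X dl k) N =
      ∑ j ∈ range J, ∑ k ∈ range J, Aw (PB κ v X) (fun _ => M) u θ i j *
        Aw (PB κ v X) (fun _ => M) u θ i k *
        KerP (GG ρ) B₀ κ X (CB (E2 κ X) (y1 κ v X a) (y1 κ v X a)) i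
          (Zj v X dl j * Zj v X dl k) N := by
    intro i
    refine sum_congr rfl fun j hj => sum_congr rfl fun k hk => ?_
    rw [← Aw_tr (fun _ => M) θ (mem_range.1 hj) i, ← Aw_tr (fun _ => M) θ (mem_range.1 hk) i]
  simp only [e4] at e3
  have e5 := abs_le.1 e2
  have e6 := abs_le.1 e3
  rw [abs_le]
  constructor
  · have := e5.1
    have := e6.1
    linarith!
  · have := e5.2
    have := e6.2
    linarith!

theorem Dat.shle (d : Dat κ v κ₁ ε₂ B₀ Cn δ T ρ X J dl Cw M ep u a ε Cm) {N : ℕ}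
    (hN : X ≤ 2 * N) (hN' : N ≤ 4 * X) {N' : ℕ} (hn : N' ∈ NNs κ X N) (θ : ℕ × ℕ → ℝ)
    (hθ : ∀ x ∈ PPp J (PB κ v X) u, |θ x| ≤ 1) :
    LSP.sh ρ T (E2 κ X) (Yv κ v X J M u a θ) N' ≤
      Cm * ∑ j ∈ range J, ∑ p ∈ PB κ v X, M * u j p * θ (j, p) ^ 2 +
        2 * (X : ℝ) ^ (-(20 * κ)) := by
  obtain ⟨h1, h2, h3, -⟩ := d.nn hN hN' N' hn
  have hX2 := d.X2
  have hX0 : (0 : ℝ) < X := by linarith
  have e1 := d.shT N' h2 h3 _ (d.th1 hθ)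
  have e2 := thE_sq (θ := tr J (PB κ v X) u θ) (fun _ => d.M0.le) d.win.nonneg d.pm
  have e3 := sum_tr (J := J) (P := PB κ v X) (m := fun _ => M) (u := u) θ (fun y => y ^ 2)
  rw [e3] at e2
  have e4 : 0 < (X : ℝ) ^ (-(20 * κ)) := by positivity
  have e5 := mul_le_mul_of_nonneg_left e2 (by linarith [d.hCm] : 0 ≤ Cm)
  unfold Yv
  linarith

theorem Dat.shcle (d : Dat κ v κ₁ ε₂ B₀ Cn δ T ρ X J dl Cw M ep u a ε Cm) {N : ℕ}
    (hN : X ≤ 2 * N) (hN' : N ≤ 4 * X) {N' : ℕ} (hn : N' ∈ NNs κ X N) (θ : ℕ × ℕ → ℝ)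
    (hθ : ∀ x ∈ PPp J (PB κ v X) u, |θ x| ≤ 1)
    (h0 : ∀ j ∈ range J, ∑ p ∈ PB κ v X, M * u j p * θ (j, p) = 0) :
    |shB ρ T (E2 κ X) (y0 κ₁ X a) (Yv κ v X J M u a θ) N'| ≤
      Cm * Real.sqrt (∑ j ∈ range J, ∑ p ∈ PB κ v X, M * u j p * θ (j, p) ^ 2) +
        2 * (X : ℝ) ^ (-(20 * κ)) := by
  obtain ⟨h1, h2, h3, -⟩ := d.nn hN hN' N' hn
  have hX2 := d.X2
  have hX0 : (0 : ℝ) < X := by linarith
  obtain ⟨S, hS, hS2⟩ := d.shC N' h2 h3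
  have e1 := hS2 _ (d.th1 hθ)
  have e0 : ∀ j ∈ range J, ∑ p ∈ PB κ v X, M * u j p * tr J (PB κ v X) u θ (j, p) = 0 := by
    intro j hj
    rw [← h0 j hj]
    refine sum_congr rfl fun p hp => ?_
    rw [mul_assoc, tr_mul θ (mem_range.1 hj) hp, mul_assoc]
  have e2 := lip_zero (J := J) (P := PB κ v X) (m := fun _ => M) (u := u)
    (θ := tr J (PB κ v X) u θ) (S := S) (L := (X : ℝ) ^ (10 * κ))
    (w := (X : ℝ) ^ (-(132 * κ))) (c := fun j => v * Real.log X + j * dl) (by positivity)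
    (by positivity) hS (fun _ => d.M0.le) d.M1 d.win.nonneg d.win.one (tr_le hθ)
    (fun j p h => (d.win.supp j p h).2.2.1) (fun p hp => (d.pb hp).1.one_le) e0
  have e3 : (X : ℝ) ^ (10 * κ) * (X : ℝ) ^ (-(132 * κ)) ≤ (X : ℝ) ^ (-(20 * κ)) := by
    rw [← Real.rpow_add hX0]
    exact d.xle (by linarith [d.h0])
  have e4 : 0 ≤ Cm * Real.sqrt (∑ j ∈ range J, ∑ p ∈ PB κ v X, M * u j p * θ (j, p) ^ 2) :=
    mul_nonneg (by linarith [d.hCm]) (Real.sqrt_nonneg _)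
  unfold Yv
  have e5 := abs_le.1 e1
  have e6 := abs_le.1 e2
  rw [abs_le]
  constructor <;> linarith [e5.1, e5.2, e6.1, e6.2]

theorem Dat.pos (d : Dat κ v κ₁ ε₂ B₀ Cn δ T ρ X J dl Cw M ep u a ε Cm) {N : ℕ}
    (hN : X ≤ 2 * N) (hN' : N ≤ 4 * X) {N' : ℕ} (hn : N' ∈ NNs κ X N) (θ : ℕ × ℕ → ℝ) (s : ℝ) :
    0 ≤ s ^ 2 * QN ρ T B₀ (E2 κ X) (y0 κ₁ X a) N' +
      2 * s * QB ρ T B₀ (E2 κ X) (y0 κ₁ X a) (Yv κ v X J M u a θ) N' +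
      QN ρ T B₀ (E2 κ X) (Yv κ v X J M u a θ) N' := by
  obtain ⟨h1, h2, h3, -⟩ := d.nn hN hN' N' hn
  have hX2 := d.X2
  have hX0 : (0 : ℝ) < X := by linarith
  have hN4 : (X : ℝ) ≤ 4 * N' := by exact_mod_cast h2
  have hE := d.num.n15
  have e1 := (qn_add d.hρ B₀ hE (Yv κ v X J M u a θ) (y0 κ₁ X a) s h1.one_le).1
  rw [qb_symm ρ T B₀ (E2 κ X) (Yv κ v X J M u a θ)] at e1
  obtain ⟨g1, g2⟩ := d.suppT (thE J (fun _ => M) u (tr J (PB κ v X) u θ))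
  have e2 := d.nonneg N' h1 ?_ (fun e => Yv κ v X J M u a θ e + s * y0 κ₁ X a e) ?_ ?_
  · rw [e1] at e2
    linarith
  · have h4 : (E2 κ X : ℝ) ≤ (X : ℝ) ^ (1 / 2 + 3 * κ) := Nat.floor_le (by positivity)
    have h5 := d.num.n10
    by_cases hC : 0 ≤ Cn
    · have h6 : Cn * (E2 κ X : ℝ) ≤ Cn * (X : ℝ) ^ (1 / 2 + 3 * κ) :=
        mul_le_mul_of_nonneg_left h4 hC
      linarith
    · push Not at hC
      have h6 : Cn * (E2 κ X : ℝ) ≤ 0 :=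
        mul_nonpos_of_nonpos_of_nonneg hC.le (Nat.cast_nonneg _)
      linarith
  · intro e he
    by_cases h4 : y0 κ₁ X a e = 0
    · have h5 : Yv κ v X J M u a θ e ≠ 0 := by
        intro h6
        apply he
        simp only [h4, h6]
        ring
      obtain ⟨h7, h8⟩ := g1 e h5
      refine ⟨h7, ?_⟩
      unfold E2
      rw [Nat.le_floor_iff (by positivity)]
      exact h8.trans (d.xle (by linarith [d.h0]))
    · exact d.e0 e h4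
  · have h4 : ∑ e ∈ Icc 1 (E2 κ X), (Yv κ v X J M u a θ e + s * y0 κ₁ X a e) * sg1 e / e =
        ∑ e ∈ Icc 1 (E2 κ X), Yv κ v X J M u a θ e * sg1 e / e +
          s * ∑ e ∈ Icc 1 (E2 κ X), y0 κ₁ X a e * sg1 e / e := by
      rw [mul_sum, ← sum_add_distrib]
      refine sum_congr rfl fun e _ => ?_
      ring
    rw [h4, d.zero0]
    unfold Yv
    rw [g2]
    ring

theorem Dat.q0le (d : Dat κ v κ₁ ε₂ B₀ Cn δ T ρ X J dl Cw M ep u a ε Cm) {N : ℕ}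
    (hN : X ≤ 2 * N) (hN' : N ≤ 4 * X) {N' : ℕ} (hn : N' ∈ NNs κ X N) :
    QN ρ T B₀ (E2 κ X) (y0 κ₁ X a) N' ≤ Cm := by
  obtain ⟨h1, h2, h3, -⟩ := d.nn hN hN' N' hn
  unfold QN
  rw [d.od0 h2, add_zero]
  exact d.sh0 N' h2 h3

end

end Pool.Agent.LSPI
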