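import Pool.Agent.Lib_helper53.LSPI.Core2
import Pool.Agent.Lib_helper53.LSPI.Cj

/-! LSP2, instance of part B: the conclusion at a fixed level. -/

set_option autoImplicit false

open Finset Filter
open scoped ComplexConjugate

namespace Pool.Agent.LSPI

open Pool.Agent.LSP Pool.Agent.GA Pool.Agent.Var73 Pool.Agent.LSPB

section

variable {κ v κ₁ ε₂ : ℝ} {B₀ : ℕ} {Cn δ : ℝ} {T : ℝ} {ρ : ℝ → ℝ} {X J : ℕ} {dl Cw M : ℝ}
  {ep : (q : ℕ) → DirichletCharacter ℂ q → ℝ} {u : ℕ → ℕ → ℝ} {a : ℕ → ℝ} {ε Cm : ℝ}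

/-- the small conductors contribute little to the off-diagonals of every level -/
theorem Dat.main (d : Dat κ v κ₁ ε₂ B₀ Cn δ T ρ X J dl Cw M ep u a ε Cm) {N : ℕ}
    (hNp : N.Prime) (hN : X ≤ 2 * N) (hN' : N ≤ 4 * X) {P : Finset ℕ} {wN : ℕ → ℝ}
    (hP : ∀ p ∈ P, p.Prime ∧ |Real.log ((p : ℝ) / N)| ≤ (X : ℝ) ^ (-(132 * κ)) ∧ 0 < wN p)
    (hP1 : ∑ p ∈ P, wN p = 1)
    (hPb : ∀ q ∈ Icc 1 ⌊(X : ℝ) ^ (496 * κ)⌋₊, ∀ χ ∈ Prm q,
      ‖∑ p ∈ P, ((wN p : ℝ) : ℂ) * χ (p : ZMod q)‖ ≤ ep q χ)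
    {w : ℕ → ℝ} (hw : ∀ j, |w j| ≤ 1) :
    |ODB ρ B₀ (E2 κ X) (y0 κ₁ X a) (Yv κ v X J M u a (fun x => w x.1)) N -
      ∑ j ∈ range J, M * w j * (KerP (GG ρ) B₀ κ X (CB (E2 κ X) (y0 κ₁ X a) (y1 κ v X a)) ⟨1, 1⟩
        (Zj v X dl j) N).re| ≤ 20 * Cm * ε + 2 * (X : ℝ) ^ (-(20 * κ)) ∧
    |OD ρ B₀ (E2 κ X) (Yv κ v X J M u a (fun x => w x.1)) N -
      ∑ j ∈ range J, ∑ k ∈ range J, M * w j * (M * w k) *
        (KerP (GG ρ) B₀ κ X (CB (E2 κ X) (y1 κ v X a) (y1 κ v X a)) ⟨1, 1⟩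
          (Zj v X dl j * Zj v X dl k) N).re| ≤
      36 * Cm * ε ^ 2 + 2 * (X : ℝ) ^ (-(20 * κ)) := by
  classical
  have hX2 := d.X2
  have hX0 : (0 : ℝ) < X := by linarith
  have h0 := d.h0
  have hNr : (X : ℝ) ≤ 2 * N := by exact_mod_cast hN
  have hNr' : (N : ℝ) ≤ 4 * X := by exact_mod_cast hN'
  have hN0 : (0 : ℝ) < N := by linarith
  have hmem : N ∈ NNs κ X N := by
    refine ⟨hNp, ?_⟩
    rw [div_self hN0.ne', Real.log_one, abs_zero]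
    positivity
  have hB := b_inst (R := R2 κ X) (D := ⌊(X : ℝ) ^ (496 * κ)⌋₊) (J := J) (B := PB κ v X)
    d.num.n3 d.num.n2 ep d.win.eps d.hε d.hε' d.eps (m := fun _ => M) (fun _ _ => d.M0) d.M1
    (u := u) d.win.nonneg (fun j p h => win_big d.num d.win h) d.win.one d.win.chr
    (NN := NNs κ X N) (fun N' h => ⟨(d.nn hN hN' N' h).1, (d.nn hN hN' N' h).2.2.2⟩)
    (P := P) (uN := wN) (fun p hp => ⟨⟨(hP p hp).1, (hP p hp).2.1⟩, (hP p hp).2.2.le⟩) hP1 hPb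
    (HH := fun i j k => KerP (GG ρ) B₀ κ X (CB (E2 κ X) (y1 κ v X a) (y1 κ v X a)) i
      (Zj v X dl j * Zj v X dl k) N)
    (BB := fun i j => KerP (GG ρ) B₀ κ X (CB (E2 κ X) (y0 κ₁ X a) (y1 κ v X a)) i
      (Zj v X dl j) N)
    (Q := fun N' θ => QN ρ T B₀ (E2 κ X) (Yv κ v X J M u a θ) N')
    (L := fun N' θ => QB ρ T B₀ (E2 κ X) (y0 κ₁ X a) (Yv κ v X J M u a θ) N')
    (sh := fun N' θ => LSP.sh ρ T (E2 κ X) (Yv κ v X J M u a θ) N')
    (shc := fun N' θ => shB ρ T (E2 κ X) (y0 κ₁ X a) (Yv κ v X J M u a θ) N')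
    (q0 := fun N' => QN ρ T B₀ (E2 κ X) (y0 κ₁ X a) N')
    (C := Cm) (K0 := (X : ℝ) ^ (8 * κ)) (eta := 2 * (X : ℝ) ^ (-(20 * κ))) d.hCm
    (Real.one_le_rpow (by linarith) (by linarith)) (by positivity) ?_
    (fun i _ j _ k _ => by rw [mul_comm (Zj v X dl j)])
    (fun i _ j _ k _ => Pool.Agent.LSPI.kerp_cj _ _ _ _ _ _ _ _) ?_
    (fun i _ j _ => Pool.Agent.LSPI.kerp_cj _ _ _ _ _ _ _ _) ?_
    (fun N' h => d.q0le hN hN' h) (fun N' h θ _ s => d.pos hN hN' h θ s)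
    (fun N' h θ hθ => d.expQ hN hN' h θ hθ) (fun N' h θ hθ => d.expL hN hN' h θ hθ)
    (fun N' h θ hθ => d.shle hN hN' h θ hθ) (fun N' h θ hθ hz => d.shcle hN hN' h θ hθ hz)
  · have hmain := b_main _ _ _ _ _ _ _ _ _ _ _ _ _ _ _ _ _ _ _ _ _ hB N hmem w
      (fun j _ => hw j)
    obtain ⟨g1, g2⟩ := hmain
    have hmass : ∀ j ∈ range J, mass (PPp J (PB κ v X) u) Prod.fst (wtp (fun _ => M) u) j = M :=
      fun j hj => mass_eq (m := fun _ => M) (mem_range.1 hj) (d.win.one j (mem_range.1 hj))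
    constructor
    · refine le_trans (le_of_eq ?_) g1
      congr 1
      have e1 : QB ρ T B₀ (E2 κ X) (y0 κ₁ X a) (Yv κ v X J M u a (fun x => w x.1)) N -
          shB ρ T (E2 κ X) (y0 κ₁ X a) (Yv κ v X J M u a (fun x => w x.1)) N =
          ODB ρ B₀ (E2 κ X) (y0 κ₁ X a) (Yv κ v X J M u a (fun x => w x.1)) N := by
        unfold QB
        rw [add_sub_cancel_left]
      rw [e1]
      congr 1
      rw [Complex.re_sum]
      refine sum_congr rfl fun j hj => ?_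
      rw [hmass j hj, Complex.re_ofReal_mul]
      rfl
    · refine le_trans (le_of_eq ?_) g2
      congr 1
      have e1 : QN ρ T B₀ (E2 κ X) (Yv κ v X J M u a (fun x => w x.1)) N -
          LSP.sh ρ T (E2 κ X) (Yv κ v X J M u a (fun x => w x.1)) N =
          OD ρ B₀ (E2 κ X) (Yv κ v X J M u a (fun x => w x.1)) N := by
        unfold QN
        rw [add_sub_cancel_left]
      rw [e1]
      congr 1
      rw [Complex.re_sum]
      refine sum_congr rfl fun j hj => ?_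
      rw [Complex.re_sum]
      refine sum_congr rfl fun k hk => ?_
      rw [hmass j hj, hmass k hk, Complex.re_ofReal_mul]
      rfl
  · have h1 : (X : ℝ) ^ (-(20 * κ)) * ((X : ℝ) ^ (8 * κ)) ^ 2 = ((X : ℝ) ^ (4 * κ))⁻¹ := by
      rw [← Real.rpow_natCast, ← Real.rpow_mul hX0.le, ← Real.rpow_add hX0, ← Real.rpow_neg hX0.le]
      congr 1
      push_cast
      ring
    rw [mul_assoc, h1]
    have h2 := d.num.n5
    have h3 : ((X : ℝ) ^ (4 * κ))⁻¹ ≤ (32 : ℝ)⁻¹ := by gcongr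
    linarith
  · intro i hi j hj k hk
    obtain ⟨a1, a2⟩ := zj_bd d.win d.v0 d.num.two (mem_range.1 hj)
    obtain ⟨b1, b2⟩ := zj_bd d.win d.v0 d.num.two (mem_range.1 hk)
    refine d.kb _ _ d.ck11 _ _ (by nlinarith) ?_ (by linarith) hNr' i hi
    have h1 : Zj v X dl j * Zj v X dl k ≤ (X : ℝ) ^ (2 * (v + κ)) := by
      rw [two_mul, Real.rpow_add hX0]
      exact mul_le_mul a2 b2 (by linarith) (by positivity)
    refine le_trans (mul_le_mul_of_nonneg_left h1 (Nat.cast_nonneg _)) (d.q2.trans (d.xle ?_))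
    linarith
  · intro i hi j hj
    obtain ⟨a1, a2⟩ := zj_bd d.win d.v0 d.num.two (mem_range.1 hj)
    refine d.kb _ _ d.ck01 _ _ a1 ?_ (by linarith) hNr' i hi
    refine le_trans (mul_le_mul_of_nonneg_left a2 (Nat.cast_nonneg _)) (d.q1.trans (d.xle ?_))
    linarith

end

end Pool.Agent.LSPI
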