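import Pool.Agent.Lib_helper53.LSPI.Size

/-! LSP2, instance of part B: the main terms at a fixed level. -/

set_option autoImplicit false

open Finset Filter

namespace Pool.Agent.LSPI

open Pool.Agent.LSP (E2 PB R2 Win thE Zj)

theorem thE_tr {J : ℕ} {P : Finset ℕ} {m : ℕ → ℝ} {u : ℕ → ℕ → ℝ} (θ : ℕ × ℕ → ℝ) {p : ℕ}
    (hp : p ∈ P) : thE J m u (tr J P u θ) p = thE J m u θ p := by
  unfold thE
  congr 1
  refine sum_congr rfl fun j hj => ?_
  rw [mul_assoc, tr_mul θ (mem_range.1 hj) hp, mul_assoc]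

/-- the coefficients are at most `1` -/
theorem thE_le {J : ℕ} {m : ℕ → ℝ} {u : ℕ → ℕ → ℝ} {θ : ℕ × ℕ → ℝ} {p : ℕ}
    (hm : ∀ j, 0 ≤ m j) (hu : ∀ j p, 0 ≤ u j p) (hθ : ∀ x, |θ x| ≤ 1)
    (h1 : p * ∑ j ∈ range J, m j * u j p ≤ 1) : |thE J m u θ p| ≤ 1 := by
  unfold thE
  rw [abs_mul, abs_of_nonneg (Nat.cast_nonneg p : (0 : ℝ) ≤ p)]
  refine le_trans (mul_le_mul_of_nonneg_left ?_ (Nat.cast_nonneg p)) h1
  refine (abs_sum_le_sum_abs _ _).trans (sum_le_sum fun j _ => ?_)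
  have h0 : 0 ≤ m j * u j p := mul_nonneg (hm j) (hu j p)
  rw [abs_mul, abs_of_nonneg h0]
  exact mul_le_of_le_one_right h0 (hθ _)

/-- Cauchy and Schwarz over the windows -/
theorem thE_sq {J : ℕ} {P : Finset ℕ} {m : ℕ → ℝ} {u : ℕ → ℕ → ℝ} {θ : ℕ × ℕ → ℝ}
    (hm : ∀ j, 0 ≤ m j) (hu : ∀ j p, 0 ≤ u j p)
    (h1 : ∀ p ∈ P, p * ∑ j ∈ range J, m j * u j p ≤ 1) :
    ∑ p ∈ P, thE J m u θ p ^ 2 / p ≤
      ∑ j ∈ range J, ∑ p ∈ P, m j * u j p * θ (j, p) ^ 2 := by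
  rw [sum_comm]
  refine sum_le_sum fun p hp => ?_
  have h0 : ∀ j ∈ range J, 0 ≤ m j * u j p := fun j _ => mul_nonneg (hm j) (hu j p)
  have h2 : 0 ≤ ∑ j ∈ range J, m j * u j p * θ (j, p) ^ 2 :=
    sum_nonneg fun j hj => mul_nonneg (h0 j hj) (sq_nonneg _)
  have h3 : (∑ j ∈ range J, m j * u j p * θ (j, p)) ^ 2 ≤
      (∑ j ∈ range J, m j * u j p) * ∑ j ∈ range J, m j * u j p * θ (j, p) ^ 2 :=
    sum_sq_le_sum_mul_sum_of_sq_le_mul _ h0
      (fun j hj => mul_nonneg (h0 j hj) (sq_nonneg (θ (j, p)))) (fun j _ => by nlinarith)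
  unfold thE
  rcases Nat.eq_zero_or_pos p with hp0 | hp0
  · subst hp0
    simpa using h2
  have hp' : (0 : ℝ) < p := by exact_mod_cast hp0
  calc (p * ∑ j ∈ range J, m j * u j p * θ (j, p)) ^ 2 / p
      = p * (∑ j ∈ range J, m j * u j p * θ (j, p)) ^ 2 := by field_simp
    _ ≤ p * ((∑ j ∈ range J, m j * u j p) * ∑ j ∈ range J, m j * u j p * θ (j, p) ^ 2) :=
        mul_le_mul_of_nonneg_left h3 hp'.le
    _ = (p * ∑ j ∈ range J, m j * u j p) * ∑ j ∈ range J, m j * u j p * θ (j, p) ^ 2 := by ring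
    _ ≤ 1 * ∑ j ∈ range J, m j * u j p * θ (j, p) ^ 2 :=
        mul_le_mul_of_nonneg_right (h1 p hp) h2
    _ = _ := one_mul _

/-- replacing `θ` by its restriction changes nothing in sums with the weights -/
theorem sum_tr {J : ℕ} {P : Finset ℕ} {m : ℕ → ℝ} {u : ℕ → ℕ → ℝ} (θ : ℕ × ℕ → ℝ)
    (f : ℝ → ℝ) :
    ∑ j ∈ range J, ∑ p ∈ P, m j * u j p * f (tr J P u θ (j, p)) =
      ∑ j ∈ range J, ∑ p ∈ P, m j * u j p * f (θ (j, p)) := by
  refine sum_congr rfl fun j hj => sum_congr rfl fun p hp => ?_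
  by_cases h : u j p = 0
  · rw [h]; simp
  · unfold tr
    rw [if_pos (mem_PPp.2 ⟨⟨mem_range.1 hj, hp⟩, h⟩)]

/-- a smooth weight against a function with vanishing window means -/
theorem lip_zero {J : ℕ} {P : Finset ℕ} {m : ℕ → ℝ} {u : ℕ → ℕ → ℝ} {θ : ℕ × ℕ → ℝ}
    {S : ℝ → ℝ} {L w : ℝ} {c : ℕ → ℝ} (hL : 0 ≤ L) (hw : 0 ≤ w) (hS : ∀ s t, |S s - S t| ≤ L * |s - t|)
    (hm : ∀ j, 0 ≤ m j) (hm1 : ∑ j ∈ range J, m j ≤ 1) (hu : ∀ j p, 0 ≤ u j p)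
    (hu1 : ∀ j, j < J → ∑ p ∈ P, u j p = 1) (hθ : ∀ x, |θ x| ≤ 1)
    (hc : ∀ j p, u j p ≠ 0 → |Real.log p - c j| ≤ w)
    (hP : ∀ p ∈ P, 1 ≤ p)
    (h0 : ∀ j ∈ range J, ∑ p ∈ P, m j * u j p * θ (j, p) = 0) :
    |∑ p ∈ P, thE J m u θ p / p * S (Real.log p)| ≤ L * w := by
  have h1 : ∑ p ∈ P, thE J m u θ p / p * S (Real.log p) =
      ∑ j ∈ range J, ∑ p ∈ P, m j * u j p * θ (j, p) * (S (Real.log p) - S (c j)) := by
    have h2 : ∀ j ∈ range J, ∑ p ∈ P, m j * u j p * θ (j, p) * (S (Real.log p) - S (c j)) =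
        ∑ p ∈ P, m j * u j p * θ (j, p) * S (Real.log p) := by
      intro j hj
      simp only [mul_sub]
      rw [sum_sub_distrib, ← sum_mul, h0 j hj, zero_mul, sub_zero]
    rw [sum_congr rfl h2, sum_comm]
    refine sum_congr rfl fun p hp => ?_
    have hp0 : (0 : ℝ) < p := by exact_mod_cast hP p hp
    unfold thE
    rw [mul_div_cancel_left₀ _ hp0.ne', sum_mul]
  rw [h1]
  calc |∑ j ∈ range J, ∑ p ∈ P, m j * u j p * θ (j, p) * (S (Real.log p) - S (c j))|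
      ≤ ∑ j ∈ range J, ∑ p ∈ P, |m j * u j p * θ (j, p) * (S (Real.log p) - S (c j))| :=
        (abs_sum_le_sum_abs _ _).trans (sum_le_sum fun j _ => abs_sum_le_sum_abs _ _)
    _ ≤ ∑ j ∈ range J, ∑ p ∈ P, m j * u j p * (L * w) := by
        refine sum_le_sum fun j _ => sum_le_sum fun p _ => ?_
        by_cases h : u j p = 0
        · rw [h]; simp
        · have h3 : 0 ≤ m j * u j p := mul_nonneg (hm j) (hu j p)
          rw [abs_mul, abs_mul, abs_of_nonneg h3]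
          have h4 := hθ (j, p)
          have h5 : |S (Real.log p) - S (c j)| ≤ L * w :=
            (hS _ _).trans (mul_le_mul_of_nonneg_left (hc j p h) hL)
          calc m j * u j p * |θ (j, p)| * |S (Real.log p) - S (c j)|
              ≤ m j * u j p * 1 * (L * w) := by gcongr
            _ = _ := by ring
    _ = ∑ j ∈ range J, m j * (L * w) := by
        refine sum_congr rfl fun j hj => ?_
        rw [← sum_mul, ← mul_sum, hu1 j (mem_range.1 hj), mul_one]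
    _ = (∑ j ∈ range J, m j) * (L * w) := by rw [sum_mul]
    _ ≤ 1 * (L * w) := mul_le_mul_of_nonneg_right hm1 (by positivity)
    _ = _ := one_mul _

end Pool.Agent.LSPI
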