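import Pool.Agent.Lib_helper53.LSPI.Pairs
import Pool.Agent.Lib_helper46.GA.B1

/-! LSP2, instance of part B: the arithmetic fields of the structure `BHyp`. -/

set_option autoImplicit false

open Finset
open scoped ComplexConjugate

namespace Pool.Agent.LSPI

open Pool.Agent.LSPB Pool.Agent.GA Pool.Agent.Var73

/-- the weighted sum over the window `j` twisted by a character -/
noncomputable def Aw (B : Finset ℕ) (m : ℕ → ℝ) (u : ℕ → ℕ → ℝ) (θ : ℕ × ℕ → ℝ) (i : Chr) (j : ℕ) : ℂ :=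
  ∑ p ∈ B, ((m j * u j p : ℝ) : ℂ) * ((θ (j, p) : ℂ) * chrEv i p)

/-- the hypotheses of part B from the windows and the expansions -/
theorem b_inst [DecidableEq Chr] {R D J : ℕ} {B : Finset ℕ} (hR : 1 ≤ R) (hRD : R ^ 2 ≤ D)
    (ep : (q : ℕ) → DirichletCharacter ℂ q → ℝ) (hep : ∀ q χ, 0 ≤ ep q χ) {ε : ℝ} (hε0 : 0 < ε)
    (hε1 : ε ≤ 1 / 64) (heps : ∑ q ∈ Icc 1 D, ∑ χ ∈ Prm q, ep q χ ≤ ε)
    {m : ℕ → ℝ} (hm : ∀ j, j < J → 0 < m j) (hm1 : ∑ j ∈ range J, m j ≤ 1)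
    {u : ℕ → ℕ → ℝ} (hu0 : ∀ j p, 0 ≤ u j p) (hup : ∀ j p, u j p ≠ 0 → p.Prime ∧ R ^ 2 < p)
    (hu1 : ∀ j, j < J → ∑ p ∈ B, u j p = 1)
    (hub : ∀ j, j < J → ∀ q ∈ Icc 1 D, ∀ χ ∈ Prm q,
      ‖∑ p ∈ B, ((u j p : ℝ) : ℂ) * χ (p : ZMod q)‖ ≤ ep q χ)
    {NN : Set ℕ} (hNN : ∀ N ∈ NN, N.Prime ∧ R < N) {P : Finset ℕ} {uN : ℕ → ℝ}
    (hP : ∀ p ∈ P, p ∈ NN ∧ 0 ≤ uN p) (hP1 : ∑ p ∈ P, uN p = 1)
    (hPb : ∀ q ∈ Icc 1 D, ∀ χ ∈ Prm q, ‖∑ p ∈ P, ((uN p : ℝ) : ℂ) * χ (p : ZMod q)‖ ≤ ep q χ)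
    {HH : Chr → ℕ → ℕ → ℂ} {BB : Chr → ℕ → ℂ} {Q L sh shc : ℕ → (ℕ × ℕ → ℝ) → ℝ} {q0 : ℕ → ℝ}
    {C K0 eta : ℝ} (hC : 1 ≤ C) (hK0 : 1 ≤ K0) (heta : 0 ≤ eta) (hetaK : eta * K0 ^ 2 ≤ 1 / 16)
    (HHs : ∀ i ∈ PsiR R, ∀ j ∈ range J, ∀ k ∈ range J, HH i j k = HH i k j)
    (HHc : ∀ i ∈ PsiR R, ∀ j ∈ range J, ∀ k ∈ range J, HH (chrCj i) j k = conj (HH i j k))
    (HHb : ∀ i ∈ PsiR R, ∀ j ∈ range J, ∀ k ∈ range J, ‖HH i j k‖ ≤ K0)
    (BBc : ∀ i ∈ PsiR R, ∀ j ∈ range J, BB (chrCj i) j = conj (BB i j))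
    (BBb : ∀ i ∈ PsiR R, ∀ j ∈ range J, ‖BB i j‖ ≤ K0)
    (hq0 : ∀ N ∈ NN, q0 N ≤ C)
    (pos : ∀ N ∈ NN, ∀ θ : ℕ × ℕ → ℝ, (∀ x ∈ PPp J B u, |θ x| ≤ 1) → ∀ s : ℝ,
      0 ≤ s ^ 2 * q0 N + 2 * s * L N θ + Q N θ)
    (expQ : ∀ N ∈ NN, ∀ θ : ℕ × ℕ → ℝ, (∀ x ∈ PPp J B u, |θ x| ≤ 1) →
      |Q N θ - sh N θ - (∑ i ∈ PsiR R, conj (chrEv i N) * ∑ j ∈ range J, ∑ k ∈ range J,
        Aw B m u θ i j * Aw B m u θ i k * HH i j k).re| ≤ eta)
    (expL : ∀ N ∈ NN, ∀ θ : ℕ × ℕ → ℝ, (∀ x ∈ PPp J B u, |θ x| ≤ 1) →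
      |L N θ - shc N θ - (∑ i ∈ PsiR R, conj (chrEv i N) * ∑ j ∈ range J,
        Aw B m u θ i j * BB i j).re| ≤ eta)
    (sh_le : ∀ N ∈ NN, ∀ θ : ℕ × ℕ → ℝ, (∀ x ∈ PPp J B u, |θ x| ≤ 1) →
      sh N θ ≤ C * ∑ j ∈ range J, ∑ p ∈ B, m j * u j p * θ (j, p) ^ 2 + eta)
    (shc_le : ∀ N ∈ NN, ∀ θ : ℕ × ℕ → ℝ, (∀ x ∈ PPp J B u, |θ x| ≤ 1) →
      (∀ j ∈ range J, ∑ p ∈ B, m j * u j p * θ (j, p) = 0) →
      |shc N θ| ≤ C * Real.sqrt (∑ j ∈ range J, ∑ p ∈ B, m j * u j p * θ (j, p) ^ 2) + eta) :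
    BHyp (PPp J B u) (range J) (PsiR R) NN Prod.fst (wtp m u) chrOne chrCj
      (fun i x => chrEv i x.2) (fun i N => chrEv i N) HH BB Q L sh shc q0 C K0 ε eta := by
  have hRp : ∀ x ∈ PPp J B u, x.2.Prime ∧ R < x.2 := by
    intro x hx
    have h := (mem_PPp.1 hx).2
    have h2 := hup _ _ h
    refine ⟨h2.1, lt_of_le_of_lt ?_ h2.2⟩
    nlinarith
  have hA : ∀ (θ : ℕ × ℕ → ℝ) (i : Chr) (j : ℕ), j ∈ range J →
      wsum (PPp J B u) Prod.fst (wtp m u) j (fun p => (θ p : ℂ) * chrEv i p.2) =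
        Aw B m u θ i j := by
    intro θ i j hj
    rw [wsum_eq (mem_range.1 hj)]
    rfl
  have hsum : ∀ (f : ℕ × ℕ → ℝ), ∑ x ∈ PPp J B u, wtp m u x * f x =
      ∑ j ∈ range J, ∑ p ∈ B, m j * u j p * f (j, p) := by
    intro f
    rw [sum_PPp (fun x => wtp m u x * f x)]
    · rfl
    · intro j p _ _ h
      unfold wtp
      simp [h]
  constructor
  · intro x hx
    have := mem_PPp.1 hx
    exact mul_nonneg (hm _ this.1.1).le (hu0 _ _)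
  · intro x hx
    exact mem_range.2 (mem_PPp.1 hx).1.1
  · intro j hj
    rw [mass_eq (mem_range.1 hj) (hu1 j (mem_range.1 hj))]
    exact hm j (mem_range.1 hj)
  · refine le_trans (le_of_eq (sum_congr rfl fun j hj => ?_)) hm1
    exact mass_eq (mem_range.1 hj) (hu1 j (mem_range.1 hj))
  · exact chrOne_mem hR
  · intro x _
    exact chrEv_one _
  · intro N _
    exact chrEv_one _
  · intro i hi
    exact chrCj_mem hi
  · intro i _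
    exact chrCj_chrCj i
  · exact chrCj_one
  · intro i hi x hx
    exact chrEv_norm hi (hRp x hx).1 (hRp x hx).2
  · intro i hi N hN
    exact chrEv_norm hi (hNN N hN).1 (hNN N hN).2
  · intro i _ x _
    exact chrEv_cj i _
  · intro i _ N _
    exact chrEv_cj i N
  · intro i hi j hj
    have hj' := mem_range.1 hj
    rw [mass_eq hj' (hu1 j hj')]
    have h := chr_orth hR hRD ep hep (m j) (hm j hj').le (B) (fun p => m j * u j p)
      (fun p _ hp => hup j p (right_ne_zero_of_mul hp)) (fun q hq χ hχ => ?_) hi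
    · refine le_trans (le_trans (le_of_eq (sum_congr rfl fun y _ => ?_)) h)
        (mul_le_mul_of_nonneg_right heps (hm j hj').le)
      rw [wsum_eq hj']
    · have h2 := hub j hj' q hq χ hχ
      have h3 : ∑ p ∈ B, ((m j * u j p : ℝ) : ℂ) * χ (p : ZMod q) =
          (m j : ℂ) * ∑ p ∈ B, ((u j p : ℝ) : ℂ) * χ (p : ZMod q) := by
        rw [mul_sum]
        refine sum_congr rfl fun p _ => ?_
        push_cast
        ring
      rw [h3, norm_mul, Complex.norm_real, Real.norm_of_nonneg (hm j hj').le, mul_comm]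
      exact mul_le_mul_of_nonneg_right h2 (hm j hj').le
  · intro i hi hi1 hic N hN
    obtain ⟨N', hN', h⟩ := chr_real_sign (D := D) (R := R) (by nlinarith) ep hep
      (lt_of_le_of_lt heps (by linarith)) P uN
      (fun p hp => ⟨(hNN p (hP p hp).1).1, (hNN p (hP p hp).1).2, (hP p hp).2⟩) hP1 hPb hi hi1
      hic (hNN N hN).1 (hNN N hN).2
    exact ⟨N', (hP N' hN').1, h⟩
  · exact HHs
  · exact HHc
  · exact HHb
  · exact BBc
  · exact BBb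
  · exact hC
  · exact hK0
  · exact hε0
  · exact hε1
  · exact heta
  · exact hetaK
  · exact hq0
  · exact pos
  · intro N hN θ hθ
    have h1 := expQ N hN θ hθ
    have h2 : ∀ i : Chr, ∑ j ∈ range J, ∑ k ∈ range J,
        wsum (PPp J B u) Prod.fst (wtp m u) j (fun p => (θ p : ℂ) * chrEv i p.2) *
          wsum (PPp J B u) Prod.fst (wtp m u) k (fun p => (θ p : ℂ) * chrEv i p.2) * HH i j k =
        ∑ j ∈ range J, ∑ k ∈ range J, Aw B m u θ i j * Aw B m u θ i k * HH i j k := fun i =>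
      sum_congr rfl fun j hj => sum_congr rfl fun k hk => by rw [hA θ i j hj, hA θ i k hk]
    simp only [h2]
    exact h1
  · intro N hN θ hθ
    have h1 := expL N hN θ hθ
    have h2 : ∀ i : Chr, ∑ j ∈ range J,
        wsum (PPp J B u) Prod.fst (wtp m u) j (fun p => (θ p : ℂ) * chrEv i p.2) * BB i j =
        ∑ j ∈ range J, Aw B m u θ i j * BB i j := fun i =>
      sum_congr rfl fun j hj => by rw [hA θ i j hj]
    simp only [h2]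
    exact h1
  · intro N hN θ hθ
    rw [hsum (fun x => θ x ^ 2)]
    exact sh_le N hN θ hθ
  · intro N hN θ hθ h0
    rw [hsum (fun x => θ x ^ 2)]
    refine shc_le N hN θ hθ fun j hj => ?_
    rw [← h0 j hj, sum_win (mem_range.1 hj) (fun x => wtp m u x * θ x)]
    · rfl
    · intro p _ h
      unfold wtp
      simp [h]

end Pool.Agent.LSPI
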