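import Pool.Agent.Lib_helper53.LSPI.Alg

/-! LSP2, instance of part B: numerical facts for large `X`. -/

set_option autoImplicit false

open Finset Filter

namespace Pool.Agent.LSPI

open Pool.Agent.LSP

/-- the numerical facts used at a fixed `X` -/
structure Num (κ v κ₁ ε₂ : ℝ) (B₀ : ℕ) (Cn δ : ℝ) (X : ℕ) : Prop where
  two : 2 ≤ X
  n1 : (4 : ℝ) ≤ (X : ℝ) ^ v
  n2 : R2 κ X ^ 2 ≤ ⌊(X : ℝ) ^ (496 * κ)⌋₊
  n3 : 1 ≤ R2 κ X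
  n4 : 3 * (R2 κ X : ℝ) ^ 2 < (X : ℝ) ^ v
  n5 : 32 ≤ (X : ℝ) ^ (4 * κ)
  n6 : 8 * ((B₀ : ℝ) + 1) * (X : ℝ) ^ (1 - v + 2 * κ) ≤ X
  n7 : 2 * (X : ℝ) ^ (1 / 2 + 2 * κ + 2 * ε₂) ≤ (X : ℝ) ^ (1 / 2 + 3 * κ)
  n8 : 16 * ((B₀ : ℝ) + 1) * (X : ℝ) ^ (1 - v + 4 * κ) < (X : ℝ) ^ (1 + v)
  n9 : 8 * ((B₀ : ℝ) + 1) * (X : ℝ) ^ (1 - 2 * κ₁ + 4 * ε₂) ≤ X
  n10 : 4 * Cn * (X : ℝ) ^ (1 / 2 + 3 * κ) ≤ X
  n11 : 2 * (X : ℝ) ^ (-(20 * κ)) ≤ δ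
  n13 : 2 ≤ (X : ℝ) ^ (132 * κ)
  n14 : (R2 κ X : ℝ) < X / 4
  n15 : 1 ≤ E2 κ X

theorem num_ev {κ v κ₁ ε₂ : ℝ} (h0 : 0 < κ) (h1 : 1000 * κ ≤ v) (h2 : v ≤ 1 / 80) (h3 : 0 < κ₁)
    (h4 : κ₁ ≤ κ) (h5 : 0 < ε₂) (h6 : ε₂ ≤ κ₁ / 1000) (B₀ : ℕ) (Cn : ℝ) {δ : ℝ} (hδ : 0 < δ) :
    ∃ X₀ : ℕ, ∀ X : ℕ, X₀ ≤ X → Num κ v κ₁ ε₂ B₀ Cn δ X := by
  have hv : 0 < v := by linarith
  obtain ⟨X₀, hX₀⟩ := eventually_atTop.1 ((ev_pow 4 (a := 0) (b := v) hv).and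
    ((ev_pow 4 (a := 400 * κ) (b := v) (by linarith)).and
    ((ev_pow 32 (a := 0) (b := 4 * κ) (by linarith)).and
    ((ev_pow (8 * ((B₀ : ℝ) + 1)) (a := 1 - v + 2 * κ) (b := 1) (by linarith)).and
    ((ev_pow 2 (a := 1 / 2 + 2 * κ + 2 * ε₂) (b := 1 / 2 + 3 * κ) (by linarith)).and
    ((ev_pow (16 * ((B₀ : ℝ) + 1) + 1) (a := 1 - v + 4 * κ) (b := 1 + v) (by linarith)).and
    ((ev_pow (8 * ((B₀ : ℝ) + 1)) (a := 1 - 2 * κ₁ + 4 * ε₂) (b := 1) (by linarith)).and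
    ((ev_pow (4 * Cn) (a := 1 / 2 + 3 * κ) (b := 1) (by linarith)).and
    ((ev_pow (2 / δ) (a := 0) (b := 20 * κ) (by linarith)).and
    ((ev_pow 2 (a := 0) (b := 132 * κ) (by linarith)).and
    ((ev_pow 8 (a := 200 * κ) (b := 1) (by linarith)).and
    ((ev_pow 1 (a := 200 * κ) (b := 200 * κ + 1) (by linarith)).and
      (eventually_ge_atTop 2)))))))))))))
  refine ⟨X₀, fun X hX => ?_⟩
  obtain ⟨e1, e2, e3, e4, e5, e6, e7, e8, e9, e10, e11, -, e12⟩ := hX₀ X hX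
  have hX2 : (2 : ℝ) ≤ X := by exact_mod_cast e12
  have hX0 : (0 : ℝ) < X := by linarith
  have hX1 : (1 : ℝ) ≤ X := by linarith
  simp only [Real.rpow_zero, mul_one, Real.rpow_one] at e1 e3 e4 e7 e8 e9 e10 e11
  have hR : (R2 κ X : ℝ) ≤ (X : ℝ) ^ (200 * κ) := Nat.floor_le (by positivity)
  have hRR : (R2 κ X : ℝ) ^ 2 ≤ (X : ℝ) ^ (400 * κ) := by
    calc (R2 κ X : ℝ) ^ 2 ≤ ((X : ℝ) ^ (200 * κ)) ^ 2 := by gcongr
      _ = (X : ℝ) ^ (400 * κ) := by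
        rw [← Real.rpow_natCast, ← Real.rpow_mul hX0.le]
        congr 1
        push_cast
        ring
  have hp400 : 0 < (X : ℝ) ^ (400 * κ) := by positivity
  refine ⟨e12, e1, ?_, ?_, ?_, e3, e4, e5, ?_, e7, e8, ?_, e10, ?_, ?_⟩
  · rw [Nat.le_floor_iff (by positivity)]
    push_cast
    exact hRR.trans (Real.rpow_le_rpow_of_exponent_le hX1 (by linarith))
  · unfold R2
    rw [Nat.one_le_floor_iff]
    exact Real.one_le_rpow hX1 (by linarith)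
  · linarith
  · have h7 : 0 < (X : ℝ) ^ (1 - v + 4 * κ) := by positivity
    linarith
  · rw [Real.rpow_neg hX0.le]
    rw [div_le_iff₀ hδ] at e9
    rw [← div_eq_mul_inv, div_le_iff₀ (by positivity)]
    linarith
  · have h8 : 0 < (X : ℝ) ^ (200 * κ) := by positivity
    linarith
  · unfold E2
    rw [Nat.one_le_floor_iff]
    exact Real.one_le_rpow hX1 (by linarith)

theorem zj_bd {κ v C : ℝ} {X J : ℕ} {dl : ℝ} {ε : (q : ℕ) → DirichletCharacter ℂ q → ℝ}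
    {u : ℕ → ℕ → ℝ} (hW : Win κ v C X J dl ε u) (hv : 0 < v) (hX : 2 ≤ X) {j : ℕ} (hj : j < J) :
    1 ≤ Zj v X dl j ∧ Zj v X dl j ≤ (X : ℝ) ^ (v + κ) := by
  have hX' : (2 : ℝ) ≤ X := by exact_mod_cast hX
  have hX0 : (0 : ℝ) < X := by linarith
  have hdl := hW.dl0
  unfold Zj
  constructor
  · have h1 : 1 ≤ (X : ℝ) ^ v := Real.one_le_rpow (by linarith) hv.le
    have h2 : 1 ≤ Real.exp (j * dl) := Real.one_le_exp (by positivity)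
    nlinarith
  · rw [Real.rpow_add hX0]
    refine mul_le_mul_of_nonneg_left ?_ (by positivity)
    rw [Real.rpow_def_of_pos hX0, Real.exp_le_exp, mul_comm (Real.log X)]
    refine le_trans ?_ hW.len
    have : (j : ℝ) ≤ J := by exact_mod_cast hj.le
    gcongr

/-- the primes of the windows are large -/
theorem win_big {κ v κ₁ ε₂ Cn δ C : ℝ} {B₀ X J : ℕ} {dl : ℝ}
    {ε : (q : ℕ) → DirichletCharacter ℂ q → ℝ} {u : ℕ → ℕ → ℝ}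
    (hN : Num κ v κ₁ ε₂ B₀ Cn δ X) (hW : Win κ v C X J dl ε u) {j p : ℕ} (h : u j p ≠ 0) :
    p.Prime ∧ R2 κ X ^ 2 < p := by
  obtain ⟨-, h1, h2, -⟩ := hW.supp j p h
  refine ⟨h1, ?_⟩
  have hX' : (2 : ℝ) ≤ X := by exact_mod_cast hN.two
  have hX0 : (0 : ℝ) < X := by linarith
  have hp : (0 : ℝ) < p := by exact_mod_cast h1.pos
  have h3 : (X : ℝ) ^ (-(132 * κ)) ≤ 1 / 2 := by
    rw [Real.rpow_neg hX0.le, ← one_div]
    exact one_div_le_one_div_of_le (by norm_num) hN.n13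
  have h4 := (abs_le.1 h2).1
  have h5 : 0 ≤ (j : ℝ) * dl := mul_nonneg (Nat.cast_nonneg _) hW.dl0.le
  have h6 : v * Real.log X - 1 / 2 ≤ Real.log p := by linarith
  have h7 : (X : ℝ) ^ v * Real.exp (-(1 / 2)) ≤ p := by
    have h8 : (X : ℝ) ^ v * Real.exp (-(1 / 2)) = Real.exp (v * Real.log X - 1 / 2) := by
      rw [Real.rpow_def_of_pos hX0, ← Real.exp_add]
      congr 1
      ring
    rw [h8, ← Real.le_log_iff_exp_le hp]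
    exact h6
  have h9 : (1 : ℝ) / 2 ≤ Real.exp (-(1 / 2)) := by
    have := Real.add_one_le_exp (-(1 / 2) : ℝ)
    linarith
  have h10 : 0 < (X : ℝ) ^ v := by positivity
  have h11 : ((R2 κ X ^ 2 : ℕ) : ℝ) < p := by
    push_cast
    have := hN.n4
    nlinarith
  exact_mod_cast h11

end Pool.Agent.LSPI
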