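import Pool.Agent.Lib_helper14.LSPB.Defs

/-! LSP2, instance of part B: pairs (window, prime). -/

set_option autoImplicit false

open Finset

namespace Pool.Agent.LSPI

open Pool.Agent.LSPB

/-- the pairs (window, prime) with positive weight -/
noncomputable def PPp (J : ℕ) (B : Finset ℕ) (u : ℕ → ℕ → ℝ) : Finset (ℕ × ℕ) :=
  (range J ×ˢ B).filter (fun x => u x.1 x.2 ≠ 0)

/-- the weights -/
noncomputable def wtp (m : ℕ → ℝ) (u : ℕ → ℕ → ℝ) (x : ℕ × ℕ) : ℝ := m x.1 * u x.1 x.2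

/-- the coefficient of the prime `p` divided by `p` -/
noncomputable def thp (J : ℕ) (m : ℕ → ℝ) (u : ℕ → ℕ → ℝ) (θ : ℕ × ℕ → ℝ) (p : ℕ) : ℝ :=
  ∑ j ∈ range J, m j * u j p * θ (j, p)

variable {J : ℕ} {B : Finset ℕ} {u : ℕ → ℕ → ℝ} {m : ℕ → ℝ}

theorem mem_PPp {x : ℕ × ℕ} : x ∈ PPp J B u ↔ (x.1 < J ∧ x.2 ∈ B) ∧ u x.1 x.2 ≠ 0 := by
  unfold PPp
  rw [mem_filter, mem_product, mem_range]

theorem sum_PPp {M : Type*} [AddCommMonoid M] (f : ℕ × ℕ → M)
    (hf : ∀ j p, j < J → p ∈ B → u j p = 0 → f (j, p) = 0) :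
    ∑ x ∈ PPp J B u, f x = ∑ j ∈ range J, ∑ p ∈ B, f (j, p) := by
  unfold PPp
  rw [sum_filter, sum_product]
  refine sum_congr rfl fun j hj => sum_congr rfl fun p hp => ?_
  split_ifs with h
  · rfl
  · exact (hf j p (mem_range.1 hj) hp (not_not.1 h)).symm

theorem sum_win {M : Type*} [AddCommMonoid M] {j : ℕ} (hj : j < J) (f : ℕ × ℕ → M)
    (hf : ∀ p, p ∈ B → u j p = 0 → f (j, p) = 0) :
    ∑ x ∈ PPp J B u with x.1 = j, f x = ∑ p ∈ B, f (j, p) := by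
  rw [sum_filter, sum_PPp (fun x => if x.1 = j then f x else 0)]
  · rw [sum_eq_single_of_mem j (mem_range.2 hj)]
    · simp
    · intro b _ hb
      simp [hb]
  · intro i p _ hp h0
    by_cases h : i = j
    · subst h
      simp only [if_true]
      exact hf p hp h0
    · simp [h]

theorem mass_eq {j : ℕ} (hj : j < J) (h1 : ∑ p ∈ B, u j p = 1) :
    mass (PPp J B u) Prod.fst (wtp m u) j = m j := by
  unfold mass
  rw [sum_win hj (wtp m u)]
  · unfold wtp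
    simp only
    rw [← mul_sum, h1, mul_one]
  · intro p _ h0
    unfold wtp
    simp [h0]

theorem wsum_eq {j : ℕ} (hj : j < J) (f : ℕ × ℕ → ℂ) :
    wsum (PPp J B u) Prod.fst (wtp m u) j f =
      ∑ p ∈ B, ((m j * u j p : ℝ) : ℂ) * f (j, p) := by
  unfold wsum
  rw [sum_win hj (fun x => ((wtp m u x : ℝ) : ℂ) * f x)]
  · rfl
  · intro p _ h0
    unfold wtp
    simp [h0]

theorem thp_le {C L θ : ℝ} {th : ℕ × ℕ → ℝ} (hC : 0 ≤ C) (hm : ∀ j, j < J → 0 ≤ m j ∧ m j ≤ C)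
    (hu : ∀ j p, 0 ≤ u j p) {p : ℕ} (hL : ∑ j ∈ range J, u j p ≤ L)
    (hθ : ∀ j, j < J → u j p ≠ 0 → |th (j, p)| ≤ θ) (hθ0 : 0 ≤ θ) :
    |thp J m u th p| ≤ C * L * θ := by
  unfold thp
  calc |∑ j ∈ range J, m j * u j p * th (j, p)| ≤ ∑ j ∈ range J, |m j * u j p * th (j, p)| :=
        abs_sum_le_sum_abs _ _
    _ ≤ ∑ j ∈ range J, C * u j p * θ := by
        refine sum_le_sum fun j hj => ?_
        have hj := mem_range.1 hj
        rw [abs_mul, abs_mul, abs_of_nonneg (hm j hj).1, abs_of_nonneg (hu j p)]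
        by_cases h0 : u j p = 0
        · rw [h0]; simp
        · have h1 := hθ j hj h0
          have h2 := (hm j hj).2
          have h3 := hu j p
          have h4 := (hm j hj).1
          exact mul_le_mul (mul_le_mul_of_nonneg_right h2 h3) h1 (abs_nonneg _)
            (mul_nonneg (h4.trans h2) h3)
    _ = C * (∑ j ∈ range J, u j p) * θ := by rw [mul_sum, sum_mul]
    _ ≤ C * L * θ := by gcongr

theorem thp_sq {C : ℝ} {th : ℕ × ℕ → ℝ} (hm : ∀ j, j < J → 0 ≤ m j)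
    (hu : ∀ j p, 0 ≤ u j p) {p : ℕ} (hL : ∑ j ∈ range J, m j * u j p ≤ C) :
    thp J m u th p ^ 2 ≤ C * ∑ j ∈ range J, m j * u j p * th (j, p) ^ 2 := by
  have h0 : ∀ j ∈ range J, 0 ≤ m j * u j p := fun j hj =>
    mul_nonneg (hm j (mem_range.1 hj)) (hu j p)
  have h1 : 0 ≤ ∑ j ∈ range J, m j * u j p * th (j, p) ^ 2 :=
    sum_nonneg fun j hj => mul_nonneg (h0 j hj) (sq_nonneg _)
  unfold thp
  refine le_trans (sum_sq_le_sum_mul_sum_of_sq_le_mul _ h0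
    (fun j hj => mul_nonneg (h0 j hj) (sq_nonneg (th (j, p)))) ?_) ?_
  · intro j _
    nlinarith
  · exact mul_le_mul_of_nonneg_right hL h1

end Pool.Agent.LSPI
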