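import Pool.Agent.Lib_helper53.LSPI.Inst
import Pool.Agent.Lib_helper41.LSP2.Defs2

/-! LSP2, instance of part B: sizes. -/

set_option autoImplicit false

open Finset Filter

namespace Pool.Agent.LSPI

open Pool.Agent.LSP (E2 PB R2 Win thE Zj)

/-- `A X^a ≤ X^b` for large `X` -/
theorem ev_pow (A : ℝ) {a b : ℝ} (h : a < b) :
    ∀ᶠ X : ℕ in atTop, A * (X : ℝ) ^ a ≤ (X : ℝ) ^ b := by
  have h1 : Tendsto (fun X : ℕ => (X : ℝ) ^ (b - a)) atTop atTop :=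
    (tendsto_rpow_atTop (by linarith)).comp tendsto_natCast_atTop_atTop
  filter_upwards [h1.eventually_ge_atTop A, eventually_gt_atTop 0] with X h2 h3
  have hX : (0 : ℝ) < X := by exact_mod_cast h3
  calc A * (X : ℝ) ^ a ≤ (X : ℝ) ^ (b - a) * (X : ℝ) ^ a :=
        mul_le_mul_of_nonneg_right h2 (by positivity)
    _ = (X : ℝ) ^ b := by rw [← Real.rpow_add hX]; congr 1; ring

/-- restriction to the pairs with positive weight -/
noncomputable def tr (J : ℕ) (B : Finset ℕ) (u : ℕ → ℕ → ℝ) (θ : ℕ × ℕ → ℝ) (x : ℕ × ℕ) : ℝ :=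
  if x ∈ PPp J B u then θ x else 0

theorem tr_le {J : ℕ} {B : Finset ℕ} {u : ℕ → ℕ → ℝ} {θ : ℕ × ℕ → ℝ}
    (h : ∀ x ∈ PPp J B u, |θ x| ≤ 1) (x : ℕ × ℕ) : |tr J B u θ x| ≤ 1 := by
  unfold tr
  split_ifs with h1
  · exact h x h1
  · simp

theorem tr_mul {J : ℕ} {B : Finset ℕ} {u : ℕ → ℕ → ℝ} (θ : ℕ × ℕ → ℝ) {j p : ℕ} (hj : j < J)
    (hp : p ∈ B) : u j p * tr J B u θ (j, p) = u j p * θ (j, p) := by
  unfold tr
  by_cases h : u j p = 0
  · rw [h]; simp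
  · rw [if_pos (mem_PPp.2 ⟨⟨hj, hp⟩, h⟩)]

theorem Aw_tr {J : ℕ} {B : Finset ℕ} {u : ℕ → ℕ → ℝ} (m : ℕ → ℝ) (θ : ℕ × ℕ → ℝ) {j : ℕ}
    (hj : j < J) (i : Pool.Agent.Var73.Chr) :
    ∑ p ∈ B, ((m j * u j p * tr J B u θ (j, p) : ℝ) : ℂ) * i.2 (p : ZMod i.1) =
      Aw B m u θ i j := by
  unfold Aw
  refine sum_congr rfl fun p hp => ?_
  have h := tr_mul (u := u) θ hj hp
  have h2 : m j * u j p * tr J B u θ (j, p) = m j * u j p * θ (j, p) := by
    rw [mul_assoc, h, mul_assoc]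
  rw [h2]
  unfold Pool.Agent.GA.chrEv
  push_cast
  ring

/-- the weights of the pairs give coefficients at most `1` -/
theorem pm_le {κ v C : ℝ} {X J : ℕ} {dl : ℝ} {ε : (q : ℕ) → DirichletCharacter ℂ q → ℝ}
    {u : ℕ → ℕ → ℝ} (hW : Win κ v C X J dl ε u) (hC : 1 ≤ C) (hv : 0 < v) (hX : 2 ≤ X)
    (hκ : κ ≤ v / 2) (hXv : (4 : ℝ) ≤ (X : ℝ) ^ v) {p : ℕ} (hp : p ∈ PB κ v X) :
    p * ∑ j ∈ range J, dl / (2 * C * (v * Real.log X)) * u j p ≤ 1 := by
  have hX' : (2 : ℝ) ≤ X := by exact_mod_cast hX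
  have hX0 : (0 : ℝ) < X := by linarith
  have hlog : 0 < Real.log X := Real.log_pos (by linarith)
  unfold PB at hp
  rw [mem_filter, mem_Icc] at hp
  obtain ⟨⟨hp1, hp2⟩, hp3, -⟩ := hp
  have hp0 : (0 : ℝ) < p := by exact_mod_cast hp1
  have hcol := hW.col p
  have hdl := hW.dl0
  have hpX : (p : ℝ) ≤ 2 * (X : ℝ) ^ (v + κ) :=
    le_trans (by exact_mod_cast hp2) (Nat.floor_le (by positivity))
  have hlp : Real.log p ≤ 2 * (v * Real.log X) := by
    have h1 : Real.log p ≤ Real.log (2 * (X : ℝ) ^ (v + κ)) := Real.log_le_log hp0 hpX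
    rw [Real.log_mul (by norm_num) (by positivity), Real.log_rpow hX0] at h1
    have h2 : Real.log 4 ≤ v * Real.log X := by
      rw [← Real.log_rpow hX0]
      exact Real.log_le_log (by norm_num) hXv
    have h3 : Real.log 4 = 2 * Real.log 2 := by
      rw [show (4 : ℝ) = 2 ^ 2 by norm_num, Real.log_pow]
      norm_num
    nlinarith
  rw [← mul_sum]
  calc p * (dl / (2 * C * (v * Real.log X)) * ∑ j ∈ range J, u j p)
      ≤ p * (dl / (2 * C * (v * Real.log X)) * (C * Real.log p / (dl * p))) := by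
        gcongr
    _ = Real.log p / (2 * (v * Real.log X)) := by
        field_simp
    _ ≤ 1 := by
        rw [div_le_one (by positivity)]
        exact hlp

end Pool.Agent.LSPI
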